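import Mathlib

/-!
Hall subgroups of finite solvable groups, and a transitivity corollary.
-/

namespace Pool.Agent.Lib.MP_938ce2_ag_h88

open Subgroup

universe u

/-- A nontrivial finite solvable group has a nontrivial normal subgroup of prime exponent. -/
theorem exists_normal_pgroup {G : Type*} [Group G] [Finite G] [Group.IsSolvable G] [Nontrivial G] :
    ∃ (p : ℕ) (N : Subgroup G), p.Prime ∧ N.Normal ∧ N ≠ ⊥ ∧ IsPGroup p N := by
  classical
  obtain ⟨n, hn⟩ := (Group.isSolvable_def G).1 inferInstance
  have hex : ∃ n, derivedSeries G n = ⊥ := ⟨n, hn⟩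
  set m := Nat.find hex with hm
  have hm0 : derivedSeries G m = ⊥ := Nat.find_spec hex
  have hmpos : m ≠ 0 := by
    intro h0
    rw [h0, derivedSeries_zero] at hm0
    exact absurd hm0 top_ne_bot
  obtain ⟨k, hk⟩ := Nat.exists_eq_succ_of_ne_zero hmpos
  have hkne : derivedSeries G k ≠ ⊥ := Nat.find_min hex (by omega)
  set A := derivedSeries G k with hA
  have hcomm : ⁅A, A⁆ = ⊥ := by
    rw [hk, Nat.succ_eq_add_one, derivedSeries_succ] at hm0
    exact hm0
  have hc : ∀ x ∈ A, ∀ y ∈ A, x * y = y * x := by
    intro x hx y hy
    have h1 := commutator_mem_commutator hx hy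
    rw [hcomm, mem_bot] at h1
    exact commutatorElement_eq_one_iff_mul_comm.1 h1
  have hAn : A.Normal := derivedSeries_normal G k
  have hcard : Nat.card A ≠ 1 := by
    intro h1
    exact hkne (card_eq_one.1 h1)
  obtain ⟨p, hp, hpd⟩ := Nat.exists_prime_and_dvd hcard
  have : Fact p.Prime := ⟨hp⟩
  obtain ⟨x, hx⟩ := exists_prime_orderOf_dvd_card' p hpd
  let N : Subgroup G :=
    { carrier := {y | y ∈ A ∧ y ^ p = 1}
      one_mem' := ⟨A.one_mem, one_pow p⟩
      mul_mem' := by
        rintro a b ⟨ha, ha'⟩ ⟨hb, hb'⟩
        refine ⟨A.mul_mem ha hb, ?_⟩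
        have : Commute a b := hc a ha b hb
        rw [this.mul_pow, ha', hb', one_mul]
      inv_mem' := by
        rintro a ⟨ha, ha'⟩
        exact ⟨A.inv_mem ha, by rw [inv_pow, ha', inv_one]⟩ }
  refine ⟨p, N, hp, ⟨?_⟩, ?_, ?_⟩
  · rintro a ⟨ha, ha'⟩ g
    refine ⟨hAn.conj_mem a ha g, ?_⟩
    rw [conj_pow, ha', mul_one, mul_inv_cancel]
  · intro hbot
    have hxN : (x : G) ∈ N := by
      refine ⟨x.2, ?_⟩
      have := pow_orderOf_eq_one x
      rw [hx] at this
      exact_mod_cast congrArg (Subtype.val) this
    rw [hbot, mem_bot] at hxN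
    have hx1 : x = 1 := Subtype.ext hxN
    rw [hx1, orderOf_one] at hx
    exact hp.one_lt.ne hx
  · intro y
    refine ⟨1, ?_⟩
    apply Subtype.ext
    simpa using y.2.2

theorem exists_hall_aux (π : ℕ → Prop) : ∀ (n : ℕ) (G : Type u) [Group G] [Finite G]
    [Group.IsSolvable G], Nat.card G = n → ∃ H : Subgroup G,
      (∀ p, p.Prime → p ∣ Nat.card H → π p) ∧ (∀ p, p.Prime → p ∣ H.index → ¬ π p) := by
  intro n
  induction n using Nat.strong_induction_on with
  | _ n ih =>
    intro G _ _ _ hn
    rcases subsingleton_or_nontrivial G with hs | hnt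
    · refine ⟨⊤, ?_, ?_⟩
      · intro p hp hd
        rw [card_top, Nat.card_unique] at hd
        exact absurd (Nat.dvd_one.1 hd) hp.one_lt.ne'
      · intro p hp hd
        rw [index_top] at hd
        exact absurd (Nat.dvd_one.1 hd) hp.one_lt.ne'
    · obtain ⟨p, N, hp, hN, hNbot, hpN⟩ := exists_normal_pgroup (G := G)
      have := hN
      have : Fact p.Prime := ⟨hp⟩
      have hcN : 1 < Nat.card N := (one_lt_card_iff_ne_bot N).2 hNbot
      have hGN : Nat.card G = Nat.card (G ⧸ N) * Nat.card N := by
        rw [card_eq_card_quotient_mul_card_subgroup N]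
      have hQpos : 0 < Nat.card (G ⧸ N) := Nat.card_pos
      have hlt : Nat.card (G ⧸ N) < n := by
        rw [← hn, hGN]
        exact lt_mul_of_one_lt_right hQpos hcN
      obtain ⟨K', hK1, hK2⟩ := ih _ hlt (G ⧸ N) rfl
      obtain ⟨m, hm⟩ := IsPGroup.iff_card.1 hpN
      set K : Subgroup G := K'.comap (QuotientGroup.mk' N) with hK
      have hindex : K.index = K'.index :=
        index_comap_of_surjective K' (QuotientGroup.mk'_surjective N)
      have hNK : N ≤ K := by
        intro x hx
        rw [hK, mem_comap, QuotientGroup.mk'_apply, (QuotientGroup.eq_one_iff x).2 hx]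
        exact K'.one_mem
      have hcardK : Nat.card K = Nat.card K' * Nat.card N := by
        have h1 : Nat.card K * K.index = Nat.card G := card_mul_index K
        have h2 : Nat.card K' * K'.index = Nat.card (G ⧸ N) := card_mul_index K'
        have h3 : 0 < K'.index := Nat.pos_of_ne_zero index_ne_zero_of_finite
        rw [hindex, hGN, ← h2] at h1
        have : Nat.card K * K'.index = Nat.card K' * Nat.card N * K'.index := by
          rw [h1]; ring
        exact Nat.eq_of_mul_eq_mul_right h3 this
      by_cases hπ : π p
      · refine ⟨K, ?_, ?_⟩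
        · intro q hq hd
          rw [hcardK] at hd
          rcases (hq.dvd_mul).1 hd with h | h
          · exact hK1 q hq h
          · rw [hm] at h
            have := (Nat.prime_dvd_prime_iff_eq hq hp).1 (hq.dvd_of_dvd_pow h)
            rw [this]; exact hπ
        · intro q hq hd
          rw [hindex] at hd
          exact hK2 q hq hd
      · set N' : Subgroup K := N.subgroupOf K with hN'
        have : N'.Normal := inferInstance
        have hcN' : Nat.card N' = Nat.card N :=
          Nat.card_congr (subgroupOfEquivOfLe hNK).toEquiv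
        have hiN' : N'.index = Nat.card K' := by
          have h1 : Nat.card N' * N'.index = Nat.card K := card_mul_index N'
          rw [hcN', hcardK, mul_comm (Nat.card K')] at h1
          exact Nat.eq_of_mul_eq_mul_left (by omega) h1
        have hcop : Nat.Coprime (Nat.card N') N'.index := by
          rw [hcN', hiN', hm]
          apply Nat.Coprime.pow_left
          rw [hp.coprime_iff_not_dvd]
          intro hd
          exact hπ (hK1 p hp hd)
        obtain ⟨H', hH'⟩ := exists_right_complement'_of_coprime hcop
        have hcH' : Nat.card H' = Nat.card K' := by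
          have h1 : Nat.card N' * Nat.card H' = Nat.card K := hH'.card_mul_card
          rw [hcN', hcardK, mul_comm (Nat.card K')] at h1
          exact Nat.eq_of_mul_eq_mul_left (by omega) h1
        have hcH : Nat.card (H'.map K.subtype) = Nat.card K' := by
          rw [← hcH']
          exact card_map_of_injective K.subtype_injective
        have hiH : (H'.map K.subtype).index = K'.index * Nat.card N := by
          have h1 : Nat.card (H'.map K.subtype) * (H'.map K.subtype).index = Nat.card G :=
            card_mul_index _
          have h2 : Nat.card K' * K'.index = Nat.card (G ⧸ N) := card_mul_index K'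
          rw [hcH, hGN, ← h2, mul_assoc] at h1
          exact Nat.eq_of_mul_eq_mul_left Nat.card_pos h1
        refine ⟨H'.map K.subtype, ?_, ?_⟩
        · intro q hq hd
          rw [hcH] at hd
          exact hK1 q hq hd
        · intro q hq hd
          rw [hiH] at hd
          rcases (hq.dvd_mul).1 hd with h | h
          · exact hK2 q hq h
          · rw [hm] at h
            have := (Nat.prime_dvd_prime_iff_eq hq hp).1 (hq.dvd_of_dvd_pow h)
            rw [this]; exact hπ

/-- **Hall's theorem** (existence): a finite solvable group has a Hall `π`-subgroup. -/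
theorem exists_hall (π : ℕ → Prop) (G : Type u) [Group G] [Finite G] [Group.IsSolvable G] :
    ∃ H : Subgroup G, (∀ p, p.Prime → p ∣ Nat.card H → π p) ∧
      (∀ p, p.Prime → p ∣ H.index → ¬ π p) :=
  exists_hall_aux π _ G rfl

/-- A subgroup whose index is prime to the number of points of a transitive action is
transitive. -/
theorem transitive_of_coprime_index {G X : Type*} [Group G] [Finite G] [Finite X]
    [MulAction G X] (htr : ∀ x y : X, ∃ g : G, g • x = y) (H : Subgroup G)
    (hcop : Nat.Coprime (Nat.card X) H.index) (x y : X) : ∃ h ∈ H, h • x = y := by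
  classical
  have : MulAction.IsPretransitive G X := ⟨htr⟩
  have hidx : (MulAction.stabilizer G x).index = Nat.card X :=
    MulAction.index_stabilizer_of_transitive G x
  set S := MulAction.stabilizer G x with hS
  -- the index of the intersection
  have h1 : S.index ∣ (H ⊓ S).index := index_dvd_of_le inf_le_right
  have h2 : H.index ∣ (H ⊓ S).index := index_dvd_of_le inf_le_left
  have h3 : S.index * H.index ∣ (H ⊓ S).index := by
    apply Nat.Coprime.mul_dvd_of_dvd_of_dvd _ h1 h2
    rw [hidx]; exact hcop
  have hne : (H ⊓ S).index ≠ 0 := index_ne_zero_of_finite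
  have h4 : S.index * H.index ≤ (H ⊓ S).index := Nat.le_of_dvd (Nat.pos_of_ne_zero hne) h3
  have h5 : (H ⊓ S).relIndex H * H.index = (H ⊓ S).index := relIndex_mul_index inf_le_left
  have hHpos : 0 < H.index := Nat.pos_of_ne_zero index_ne_zero_of_finite
  have h6 : Nat.card X ≤ S.relIndex H := by
    have : S.index * H.index ≤ (H ⊓ S).relIndex H * H.index := by rw [h5]; exact h4
    have := Nat.le_of_mul_le_mul_right this hHpos
    rw [hidx, inf_relIndex_left] at this
    exact this
  -- the orbit of x under H
  have h7 : (MulAction.orbit H x).ncard = S.relIndex H := by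
    have : S.relIndex H = (MulAction.stabilizer H x).index := by
      rw [relIndex]
      congr 1
    rw [this, MulAction.index_stabilizer]
  have h8 : MulAction.orbit H x = Set.univ := by
    apply Set.eq_univ_of_univ_subset
    have hle : (Set.univ : Set X).ncard ≤ (MulAction.orbit H x).ncard := by
      rw [h7, Set.ncard_univ]; exact h6
    exact (Set.eq_of_subset_of_ncard_le (Set.subset_univ _) hle (Set.toFinite _)).symm.subset
  have h9 : y ∈ MulAction.orbit H x := by rw [h8]; trivial
  obtain ⟨h, hh⟩ := h9
  exact ⟨h, h.2, hh⟩

end Pool.Agent.Lib.MP_938ce2_ag_h88
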