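import Mathlib
import Pool.Agent.Lib.MP_938ce2_ag_h67.Red
import Pool.Agent.Lib.MP_938ce2_ag_h85d.Isotypic

/-!
Module M2 of Theorem U: for a finite group of odd order the quotient of the dimension of a simple
rational module by the dimension of its endomorphism algebra is odd.
-/

set_option autoImplicit false
set_option linter.unusedSectionVars false

namespace Pool.Agent.Lib.MP_938ce2_ag_h88

open Finset Module

section Trace

/-- The trace of an operator of finite order on a rational vector space is an integer. -/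
lemma trace_int {S : Type*} [AddCommGroup S] [Module ℚ S] [Module.Finite ℚ S]
    (f : S →ₗ[ℚ] S) (k : ℕ) (hk : 0 < k) (hf : f ^ k = 1) :
    ∃ z : ℤ, LinearMap.trace ℚ S f = z := by
  classical
  set b := Module.finBasis ℚ S with hb
  set A := LinearMap.toMatrix b b f with hA
  have hAk : A ^ k = 1 := by
    have h1 : LinearMap.toMatrix b b (f ^ k) = A ^ k :=
      map_pow (LinearMap.toMatrixAlgEquiv b) f k
    rw [← h1, hf, LinearMap.toMatrix_one]
  set A' : Matrix _ _ ℂ := A.map (algebraMap ℚ ℂ) with hA'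
  have hA'k : A' ^ k = 1 := by
    have h1 : A' = (algebraMap ℚ ℂ).mapMatrix A := rfl
    rw [h1, ← map_pow, hAk, map_one]
  have htr : A'.trace = algebraMap ℚ ℂ (LinearMap.trace ℚ S f) := by
    rw [LinearMap.trace_eq_matrix_trace ℚ b f]
    simp [Matrix.trace, hA', hA]
  have hint : IsIntegral ℤ A'.trace := by
    rw [Matrix.trace_eq_sum_roots_charpoly A']
    apply Multiset.sum_induction (fun x => IsIntegral ℤ x)
    · intro a b ha hb
      exact ha.add hb
    · exact isIntegral_zero
    · intro μ hμ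
      have h1 : A'.charpoly.IsRoot μ := Polynomial.isRoot_of_mem_roots hμ
      have h2 : (Matrix.toLin' A').charpoly.IsRoot μ := by
        rw [Matrix.charpoly_toLin']
        exact h1
      have h3 := (Module.End.hasEigenvalue_iff_isRoot_charpoly _ _).2 h2
      obtain ⟨v, hv⟩ := h3.exists_hasEigenvector
      have h4 := hv.pow_apply k
      have h5 : (Matrix.toLin' A') ^ k = 1 := by
        rw [← Matrix.toLin'_pow, hA'k, Matrix.toLin'_one]
        rfl
      rw [h5] at h4
      have h6 : μ ^ k = 1 := by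
        have h7 : (1 - μ ^ k) • v = 0 := by
          rw [sub_smul, one_smul, ← h4]
          simp
        rcases smul_eq_zero.1 h7 with h | h
        · exact (sub_eq_zero.1 h).symm
        · exact absurd h hv.2
      refine IsIntegral.of_pow hk ?_
      rw [h6]
      exact isIntegral_one
  rw [htr] at hint
  have h8 : IsIntegral ℤ (LinearMap.trace ℚ S f) :=
    (isIntegral_algebraMap_iff (algebraMap ℚ ℂ).injective).1 hint
  obtain ⟨z, hz⟩ := IsIntegrallyClosed.isIntegral_iff.1 h8
  exact ⟨z, by rw [← hz]; simp⟩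

lemma trace_fun {S : Type*} [AddCommGroup S] [Module ℚ S] [Module.Finite ℚ S] (n : ℕ)
    (f : S →ₗ[ℚ] S) :
    LinearMap.trace ℚ (Fin n → S) (LinearMap.pi fun i => f ∘ₗ LinearMap.proj i)
      = n * LinearMap.trace ℚ S f := by
  classical
  set b := Module.finBasis ℚ S with hb
  rw [LinearMap.trace_eq_matrix_trace ℚ (Pi.basis (fun _ : Fin n => b)),
    LinearMap.trace_eq_matrix_trace ℚ b]
  simp only [Matrix.trace, Matrix.diag_apply, LinearMap.toMatrix_apply, Pi.basis_repr,
    Pi.basis_apply, LinearMap.pi_apply, LinearMap.comp_apply, LinearMap.proj_apply]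
  rw [Fintype.sum_sigma]
  simp

end Trace

section Group

variable {P : Type} [Group P] [Fintype P]

lemma trace_mulLeft (x : MonoidAlgebra ℚ P) :
    LinearMap.trace ℚ (MonoidAlgebra ℚ P) (LinearMap.mulLeft ℚ x)
      = Fintype.card P * x.coeff 1 := by
  classical
  rw [LinearMap.trace_eq_matrix_trace ℚ (MonoidAlgebra.basis P ℚ)]
  have h : ∀ g : P, (MonoidAlgebra.basis P ℚ).repr (x * MonoidAlgebra.single g 1) g
      = x.coeff 1 := by
    intro g
    have : (MonoidAlgebra.basis P ℚ).repr (x * MonoidAlgebra.single g 1) g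
        = (x * MonoidAlgebra.single g 1).coeff g := rfl
    rw [this, MonoidAlgebra.coeff_mul_single_apply, mul_inv_cancel, mul_one]
  simp only [Matrix.trace, Matrix.diag_apply, LinearMap.toMatrix_apply,
    MonoidAlgebra.basis_apply, LinearMap.mulLeft_apply, h]
  rw [Finset.sum_const, Finset.card_univ, nsmul_eq_mul]

variable {S : Type} [AddCommGroup S] [Module ℚ S] [Module (MonoidAlgebra ℚ P) S]
  [IsScalarTower ℚ (MonoidAlgebra ℚ P) S] [Module.Finite ℚ S]
  [IsSimpleModule (MonoidAlgebra ℚ P) S]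

/-- evaluation of the homomorphisms on a left ideal -/
noncomputable def actHom (J : Submodule (MonoidAlgebra ℚ P) (MonoidAlgebra ℚ P)) :
    S →ₗ[ℚ] (J →ₗ[MonoidAlgebra ℚ P] S) where
  toFun s := (LinearMap.toSpanSingleton (MonoidAlgebra ℚ P) S s).comp J.subtype
  map_add' s t := by
    apply LinearMap.ext
    intro x
    show (x : MonoidAlgebra ℚ P) • (s + t) = (x : MonoidAlgebra ℚ P) • s + (x : MonoidAlgebra ℚ P) • t
    rw [smul_add]
  map_smul' a s := by
    apply LinearMap.ext
    intro x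
    show (x : MonoidAlgebra ℚ P) • (a • s) = a • ((x : MonoidAlgebra ℚ P) • s)
    rw [smul_comm]

lemma actHom_apply (J : Submodule (MonoidAlgebra ℚ P) (MonoidAlgebra ℚ P)) (s : S) (x : J) :
    actHom J s x = (x : MonoidAlgebra ℚ P) • s := rfl

variable (P S) in
/-- the isotypic component of the group algebra -/
noncomputable def JJ : Submodule (MonoidAlgebra ℚ P) (MonoidAlgebra ℚ P) :=
  isotypicComponent (MonoidAlgebra ℚ P) (MonoidAlgebra ℚ P) S

lemma actHom_bij [IsSemisimpleRing (MonoidAlgebra ℚ P)] :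
    Function.Bijective (actHom (S := S) (JJ P S)) := by
  have hnt : Nontrivial S := IsSimpleModule.nontrivial (MonoidAlgebra ℚ P) S
  constructor
  · rw [injective_iff_map_eq_zero]
    intro s hs
    by_contra hs0
    let f : MonoidAlgebra ℚ P →ₗ[MonoidAlgebra ℚ P] S :=
      LinearMap.toSpanSingleton (MonoidAlgebra ℚ P) S s
    have hf : ∀ x, f x = x • s := fun x => rfl
    have hsurj : LinearMap.range f = ⊤ := by
      rcases eq_bot_or_eq_top (LinearMap.range f) with h | h
      · exfalso
        apply hs0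
        have h1 : f 1 ∈ LinearMap.range f := ⟨1, rfl⟩
        rw [h, Submodule.mem_bot, hf, one_smul] at h1
        exact h1
      · exact h
    obtain ⟨C, hC⟩ := exists_isCompl (LinearMap.ker f)
    have e : C ≃ₗ[MonoidAlgebra ℚ P] S :=
      (Submodule.quotientEquivOfIsCompl _ _ hC).symm.trans
        (f.quotKerEquivOfSurjective (LinearMap.range_eq_top.1 hsurj))
    have hCJ : C ≤ JJ P S := le_sSup ⟨e⟩
    have hCker : C ≤ LinearMap.ker f := by
      intro y hy
      rw [LinearMap.mem_ker, hf]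
      have h1 := congrArg (fun g : (JJ P S) →ₗ[MonoidAlgebra ℚ P] S => g ⟨y, hCJ hy⟩) hs
      exact h1
    have hCbot : C = ⊥ := by
      have := hC.disjoint
      rw [disjoint_iff] at this
      rw [inf_eq_right.2 hCker] at this
      exact this
    obtain ⟨t, ht⟩ := exists_ne (0 : S)
    apply ht
    have h2 : (e.symm t : MonoidAlgebra ℚ P) = 0 :=
      (Submodule.mem_bot _).1 (hCbot.le (e.symm t).2)
    have h3 : e.symm t = 0 := Subtype.ext h2
    rw [← e.apply_symm_apply t, h3, map_zero]
  · intro φ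
    obtain ⟨C, hC⟩ := exists_isCompl (JJ P S)
    let π := Submodule.projectionOnto (JJ P S) C hC
    refine ⟨φ (π 1), ?_⟩
    apply LinearMap.ext
    intro x
    rw [actHom_apply, ← map_smul, ← map_smul, smul_eq_mul, mul_one]
    congr 1
    exact Submodule.projectionOnto_apply_left hC x

lemma finrank_hom_pow (n : ℕ) :
    finrank ℚ ((Fin n → S) →ₗ[MonoidAlgebra ℚ P] S)
      = n * finrank ℚ (S →ₗ[MonoidAlgebra ℚ P] S) := by
  have : Module.Finite ℚ (S →ₗ[MonoidAlgebra ℚ P] S) :=
    Pool.Agent.Lib.MP_938ce2_ag_h85d.finite_hom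
  let F : ((Fin n → S) →ₗ[MonoidAlgebra ℚ P] S) ≃ₗ[ℚ] (Fin n → (S →ₗ[MonoidAlgebra ℚ P] S)) :=
    { toFun := fun φ i => φ.comp (LinearMap.single (MonoidAlgebra ℚ P) (fun _ => S) i)
      invFun := fun ψ => ∑ i, (ψ i).comp (LinearMap.proj i)
      map_add' := fun φ ψ => rfl
      map_smul' := fun a φ => rfl
      left_inv := by
        intro φ
        apply LinearMap.ext
        intro v
        simp only [LinearMap.sum_apply, LinearMap.comp_apply, LinearMap.proj_apply]
        rw [← map_sum]
        congr 1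
        exact Finset.univ_sum_single v
      right_inv := by
        intro ψ
        funext i
        apply LinearMap.ext
        intro s
        simp only [LinearMap.sum_apply, LinearMap.comp_apply, LinearMap.proj_apply]
        rw [Finset.sum_eq_single i]
        · simp
        · intro j _ hj
          simp [LinearMap.single_apply, Pi.single_eq_of_ne hj]
        · intro h
          exact absurd (Finset.mem_univ i) h }
  rw [F.finrank_eq, Module.finrank_pi_fintype, Finset.sum_const, Finset.card_univ,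
    Fintype.card_fin, smul_eq_mul]

lemma mul_mem_JJ {x : MonoidAlgebra ℚ P} (hx : x ∈ JJ P S) (r : MonoidAlgebra ℚ P) :
    x * r ∈ JJ P S :=
  LinearMap.le_comap_isotypicComponent (S := S)
    (LinearMap.toSpanSingleton (MonoidAlgebra ℚ P) (MonoidAlgebra ℚ P) r) hx

/-- the trace of an element of the isotypic component -/
lemma trace_of_mem_JJ {n : ℕ} (e : JJ P S ≃ₗ[MonoidAlgebra ℚ P] (Fin n → S))
    {x : MonoidAlgebra ℚ P} (hx : x ∈ JJ P S) :
    (Fintype.card P : ℚ) * x.coeff 1
      = n * LinearMap.trace ℚ S (Algebra.lsmul ℚ ℚ S x) := by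
  rw [← trace_mulLeft]
  have h1 : ∀ y, LinearMap.mulLeft ℚ x y ∈ (JJ P S).restrictScalars ℚ := fun y =>
    mul_mem_JJ hx y
  rw [← LinearMap.trace_restrict_eq_of_forall_mem ((JJ P S).restrictScalars ℚ)
    (LinearMap.mulLeft ℚ x) h1]
  let eQ : ((JJ P S).restrictScalars ℚ) ≃ₗ[ℚ] (Fin n → S) := e.restrictScalars ℚ
  rw [← LinearMap.trace_conj' _ eQ, ← trace_fun]
  congr 1
  apply LinearMap.ext
  intro v
  rw [LinearEquiv.conj_apply_apply]
  funext i
  show e (⟨x * ((e.symm v : JJ P S) : MonoidAlgebra ℚ P), _⟩ : JJ P S) i = x • v i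
  have h2 : (⟨x * ((e.symm v : JJ P S) : MonoidAlgebra ℚ P), mul_mem_JJ hx _⟩ : JJ P S)
      = x • e.symm v := rfl
  rw [h2, map_smul, e.apply_symm_apply]
  rfl

/-- an integral element of the group algebra -/
noncomputable def toR (z : P → ℤ) : MonoidAlgebra ℚ P :=
  ∑ σ : P, MonoidAlgebra.single σ ((z σ : ℤ) : ℚ)

lemma toR_coeff (z : P → ℤ) (σ : P) : (toR z).coeff σ = z σ := by
  classical
  unfold toR
  rw [MonoidAlgebra.coeff_sum, Finsupp.finsetSum_apply, Finset.sum_eq_single σ]
  · rw [MonoidAlgebra.coeff_single, Finsupp.single_eq_same]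
  · intro τ _ hτ
    rw [MonoidAlgebra.coeff_single, Finsupp.single_eq_of_ne hτ.symm]
  · intro h
    exact absurd (Finset.mem_univ σ) h

lemma trace_single_int (σ : P) : ∃ z : ℤ,
    LinearMap.trace ℚ S (Algebra.lsmul ℚ ℚ S (MonoidAlgebra.single σ (1 : ℚ))) = z := by
  refine trace_int _ (Fintype.card P) Fintype.card_pos ?_
  rw [← map_pow, MonoidAlgebra.single_pow, pow_card_eq_one, one_pow, ← MonoidAlgebra.one_def,
    map_one]

lemma trace_toR_int (z : P → ℤ) (σ : P) : ∃ t : ℤ,
    LinearMap.trace ℚ S (Algebra.lsmul ℚ ℚ S (toR z * MonoidAlgebra.single σ (1 : ℚ))) = t := by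
  choose w hw using trace_single_int (P := P) (S := S)
  refine ⟨∑ τ, z τ * w (τ * σ), ?_⟩
  unfold toR
  rw [Finset.sum_mul, map_sum, map_sum]
  push_cast
  refine Finset.sum_congr rfl fun τ _ => ?_
  rw [MonoidAlgebra.single_mul_single, mul_one]
  have h1 : MonoidAlgebra.single (τ * σ) ((z τ : ℤ) : ℚ)
      = ((z τ : ℤ) : ℚ) • MonoidAlgebra.single (τ * σ) (1 : ℚ) := by
    rw [MonoidAlgebra.smul_single', mul_one]
  rw [h1, map_smul, map_smul, hw, smul_eq_mul]

/-- the descent -/
lemma descent (hP : Odd (Fintype.card P)) {n : ℕ} (hn : Even n)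
    (e : JJ P S ≃ₗ[MonoidAlgebra ℚ P] (Fin n → S)) :
    ∀ (N : ℕ) (z : P → ℤ), ∑ σ, (z σ).natAbs = N → toR z ∈ JJ P S → z = 0 := by
  intro N
  induction N using Nat.strong_induction_on with
  | _ N ih =>
    intro z hzN hz
    have heven : ∀ σ, (2 : ℤ) ∣ z σ := by
      intro σ
      obtain ⟨t, ht⟩ := trace_toR_int (S := S) z σ⁻¹
      have h1 := trace_of_mem_JJ e (mul_mem_JJ hz (MonoidAlgebra.single σ⁻¹ (1 : ℚ)))
      rw [ht, MonoidAlgebra.coeff_mul_single_apply, inv_inv, one_mul, mul_one, toR_coeff] at h1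
      have h2 : ((Fintype.card P : ℤ) * z σ : ℤ) = n * t := by exact_mod_cast h1
      have h3 : (2 : ℤ) ∣ (Fintype.card P : ℤ) * z σ := by
        rw [h2]
        obtain ⟨k, hk⟩ := hn
        exact ⟨k * t, by rw [hk]; push_cast; ring⟩
      rcases Int.prime_two.dvd_or_dvd h3 with h | h
      · exfalso
        have h4 : 2 ∣ Fintype.card P := by exact_mod_cast h
        exact (Nat.not_even_iff_odd.2 hP) (even_iff_two_dvd.2 h4)
      · exact h
    choose w hw using heven
    have hwz : toR w ∈ JJ P S := by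
      have h1 : toR w = (algebraMap ℚ (MonoidAlgebra ℚ P) (1 / 2)) • toR z := by
        rw [algebraMap_smul]
        apply MonoidAlgebra.coeff_injective
        ext σ
        rw [MonoidAlgebra.coeff_smul_apply, toR_coeff, toR_coeff, hw, smul_eq_mul]
        push_cast
        ring
      rw [h1]
      exact (JJ P S).smul_mem _ hz
    have hsum : ∑ σ, (z σ).natAbs = 2 * ∑ σ, (w σ).natAbs := by
      rw [Finset.mul_sum]
      refine Finset.sum_congr rfl fun σ _ => ?_
      rw [hw σ, Int.natAbs_mul]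
      rfl
    rcases Nat.eq_zero_or_pos N with h0 | hpos
    · funext σ
      rw [h0, Finset.sum_eq_zero_iff] at hzN
      exact Int.natAbs_eq_zero.1 (hzN σ (Finset.mem_univ σ))
    · have hlt : ∑ σ, (w σ).natAbs < N := by omega
      have hw0 := ih _ hlt w rfl hwz
      funext σ
      rw [hw σ, hw0]
      rfl

/-- a common denominator -/
lemma exists_toR (x : MonoidAlgebra ℚ P) (hx : x ≠ 0) :
    ∃ (d : ℚ) (z : P → ℤ), d • x = toR z ∧ z ≠ 0 := by
  classical
  set d : ℕ := ∏ σ : P, (x.coeff σ).den with hd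
  have hd0 : d ≠ 0 := Finset.prod_ne_zero_iff.2 fun σ _ => (x.coeff σ).den_nz
  have h1 : ∀ σ : P, ∃ z : ℤ, (d : ℚ) * x.coeff σ = z := by
    intro σ
    have h2 : (x.coeff σ).den ∣ d := Finset.dvd_prod_of_mem _ (Finset.mem_univ σ)
    obtain ⟨k, hk⟩ := h2
    refine ⟨k * (x.coeff σ).num, ?_⟩
    rw [hk]
    push_cast
    have h3 := Rat.mul_den_eq_num (x.coeff σ)
    calc ((x.coeff σ).den : ℚ) * k * x.coeff σ = k * (x.coeff σ * (x.coeff σ).den) := by ring
      _ = k * (x.coeff σ).num := by rw [h3]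
  choose z hz using h1
  refine ⟨d, z, ?_, ?_⟩
  · apply MonoidAlgebra.coeff_injective
    ext σ
    rw [MonoidAlgebra.coeff_smul_apply, toR_coeff, smul_eq_mul, hz]
  · intro h
    apply hx
    apply MonoidAlgebra.coeff_injective
    ext σ
    have h2 := hz σ
    rw [h] at h2
    have h3 : (d : ℚ) ≠ 0 := by exact_mod_cast hd0
    simpa [h3] using h2

variable (P S) in
/-- **Module M2.** For a group of odd order the dimension of a simple rational module is an odd
multiple of the dimension of its endomorphism algebra. -/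
theorem exists_odd_mul_finrank_end (hP : Odd (Fintype.card P)) :
    ∃ n : ℕ, Odd n ∧ finrank ℚ S = n * finrank ℚ (S →ₗ[MonoidAlgebra ℚ P] S) := by
  have hneP : NeZero (Nat.card P : ℚ) := ⟨by exact_mod_cast Nat.card_pos.ne'⟩
  have hnt : Nontrivial S := IsSimpleModule.nontrivial (MonoidAlgebra ℚ P) S
  have hiso : IsIsotypicOfType (MonoidAlgebra ℚ P) (JJ P S) S :=
    IsIsotypicOfType.isotypicComponent (MonoidAlgebra ℚ P) (MonoidAlgebra ℚ P) S
  have hfin : Module.Finite (MonoidAlgebra ℚ P) (JJ P S) := inferInstance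
  obtain ⟨n, ⟨e⟩⟩ := hiso.linearEquiv_fun
  have hdim : finrank ℚ S = n * finrank ℚ (S →ₗ[MonoidAlgebra ℚ P] S) := by
    rw [← finrank_hom_pow n]
    rw [(LinearEquiv.ofBijective _ (actHom_bij (P := P) (S := S))).finrank_eq]
    exact Pool.Agent.Lib.MP_938ce2_ag_h67.finrank_hom_congr e (LinearEquiv.refl _ _)
  refine ⟨n, ?_, hdim⟩
  by_contra hodd
  have hn : Even n := Nat.not_odd_iff_even.1 hodd
  have hn0 : n ≠ 0 := by
    rintro rfl
    rw [zero_mul] at hdim
    have : 0 < finrank ℚ S := Module.finrank_pos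
    omega
  -- a nonzero element of the isotypic component
  obtain ⟨s, hs⟩ := exists_ne (0 : S)
  let v : Fin n → S := fun _ => s
  have hv : v ≠ 0 := by
    intro h
    exact hs (congrFun h ⟨0, Nat.pos_of_ne_zero hn0⟩)
  have hx0 : ((e.symm v : JJ P S) : MonoidAlgebra ℚ P) ≠ 0 := by
    intro h
    apply hv
    have h1 : e.symm v = 0 := Subtype.ext h
    rw [← e.apply_symm_apply v, h1, map_zero]
  obtain ⟨d, z, hz, hz0⟩ := exists_toR _ hx0
  apply hz0
  refine descent hP hn e _ z rfl ?_
  rw [← hz, ← algebraMap_smul (MonoidAlgebra ℚ P) d]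
  exact (JJ P S).smul_mem _ (e.symm v).2

end Group

end Pool.Agent.Lib.MP_938ce2_ag_h88
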