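import Mathlib
import Pool.Agent.Lib.MP_938ce2_ag_h67.Type
import Pool.Agent.Lib.MP_938ce2_ag_h85d.Isotypic

/-!
Module M4 of Theorem U: the bound at `q = 3` and the bound for a type which occurs once.
-/

set_option autoImplicit false
set_option linter.unusedSectionVars false

namespace Pool.Agent.Lib.MP_938ce2_ag_h88

open Finset Real Module
open Pool.Agent.Lib.MP_938ce2_ag_h67

section Char

variable {q : ℕ} [Fact q.Prime] {Ω : Type*} [Fintype Ω] [DecidableEq Ω]

open ZMod in
lemma norm_sum_char_le_gen {c : ℝ}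
    (hc : ∀ t : ZMod q, t ≠ 0 → ‖(stdAddChar t : ℂ) + stdAddChar (-t)‖ ≤ 2 * c)
    (y : Ω → ZMod q) :
    ‖∑ η : Finset Ω, (stdAddChar (∑ x, (sg η x : ZMod q) * y x) : ℂ)‖
      ≤ 2 ^ Fintype.card Ω * c ^ wt y := by
  have h1 : ∀ η : Finset Ω, (stdAddChar (∑ x, (sg η x : ZMod q) * y x) : ℂ)
      = (∏ x ∈ η, (stdAddChar (y x) : ℂ)) * ∏ x ∈ univ \ η, (stdAddChar (-(y x)) : ℂ) := by
    intro η
    rw [addChar_sum, ← Finset.prod_sdiff (Finset.subset_univ η), mul_comm]
    congr 1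
    · refine Finset.prod_congr rfl fun x hx => ?_
      simp [sg, hx]
    · refine Finset.prod_congr rfl fun x hx => ?_
      have : x ∉ η := (Finset.mem_sdiff.mp hx).2
      simp [sg, this]
  have h2 : ∑ η : Finset Ω, (stdAddChar (∑ x, (sg η x : ZMod q) * y x) : ℂ)
      = ∏ x, ((stdAddChar (y x) : ℂ) + stdAddChar (-(y x))) := by
    rw [Finset.prod_add, Finset.powerset_univ]
    exact Finset.sum_congr rfl fun η _ => h1 η
  rw [h2, norm_prod]
  have h3 : ∀ x, ‖(stdAddChar (y x) : ℂ) + stdAddChar (-(y x))‖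
      ≤ 2 * (if y x ≠ 0 then c else 1) := by
    intro x
    by_cases hx : y x = 0
    · simp only [hx, neg_zero, AddChar.map_zero_eq_one, ne_eq, not_true_eq_false, if_false]
      norm_num
    · rw [if_pos hx]
      exact hc _ hx
  calc ∏ x, ‖(stdAddChar (y x) : ℂ) + stdAddChar (-(y x))‖
      ≤ ∏ x, (2 * (if y x ≠ 0 then c else 1)) :=
        Finset.prod_le_prod (fun _ _ => norm_nonneg _) fun x _ => h3 x
    _ = 2 ^ Fintype.card Ω * c ^ wt y := by
        rw [Finset.prod_mul_distrib, Finset.prod_const, Finset.card_univ, Finset.prod_ite,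
          Finset.prod_const, Finset.prod_const_one, mul_one, wt]

open ZMod Classical in
/-- first moment method: the number of sign vectors orthogonal to the code `C`, with a general
bound for the nontrivial character sums -/
lemma card_orth_le_gen {c : ℝ}
    (hc : ∀ t : ZMod q, t ≠ 0 → ‖(stdAddChar t : ℂ) + stdAddChar (-t)‖ ≤ 2 * c)
    (C : Submodule (ZMod q) (Ω → ZMod q)) :
    ((univ.filter fun η : Finset Ω => ∀ y ∈ C, ∑ x, (sg η x : ZMod q) * y x = 0).card : ℝ)
        * Nat.card C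
      ≤ 2 ^ Fintype.card Ω * ∑ y : C, c ^ wt (y : Ω → ZMod q) := by
  let φ : Finset Ω → C →+ ZMod q := fun η =>
    { toFun := fun y => ∑ x, (sg η x : ZMod q) * (y : Ω → ZMod q) x
      map_zero' := by simp
      map_add' := fun a b => by
        simp only [Submodule.coe_add, Pi.add_apply, mul_add, Finset.sum_add_distrib] }
  let χ : Finset Ω → AddChar C ℂ := fun η => stdAddChar.compAddMonoidHom (φ η)
  have hχ : ∀ η y, χ η y = stdAddChar (∑ x, (sg η x : ZMod q) * (y : Ω → ZMod q) x) :=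
    fun η y => rfl
  have h1 : ∀ η : Finset Ω, ∑ y : C, χ η y
      = if (∀ y ∈ C, ∑ x, (sg η x : ZMod q) * y x = 0) then (Nat.card C : ℂ) else 0 := by
    intro η
    rw [AddChar.sum_eq_ite]
    have h2 : χ η = 0 ↔ ∀ y ∈ C, ∑ x, (sg η x : ZMod q) * y x = 0 := by
      constructor
      · intro h y hy
        have h3 : χ η ⟨y, hy⟩ = 1 := by rw [h]; rfl
        rw [hχ] at h3
        have h4 : (stdAddChar (∑ x, (sg η x : ZMod q) * y x) : ℂ) = stdAddChar (0 : ZMod q) := by
          rw [AddChar.map_zero_eq_one]; exact h3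
        exact injective_stdAddChar h4
      · intro h
        ext y
        rw [hχ, h y y.2, AddChar.map_zero_eq_one]
        rfl
    rw [Nat.card_eq_fintype_card]
    by_cases h3 : χ η = 0
    · rw [if_pos h3, if_pos (h2.mp h3)]
    · rw [if_neg h3, if_neg (fun h => h3 (h2.mpr h))]
  have h5 : ((univ.filter fun η : Finset Ω =>
      ∀ y ∈ C, ∑ x, (sg η x : ZMod q) * y x = 0).card : ℂ) * Nat.card C
      = ∑ y : C, ∑ η : Finset Ω, χ η y := by
    rw [Finset.sum_comm, Finset.sum_congr rfl fun η _ => h1 η, ← Finset.sum_filter,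
      Finset.sum_const, nsmul_eq_mul]
  have h6 : ((univ.filter fun η : Finset Ω =>
      ∀ y ∈ C, ∑ x, (sg η x : ZMod q) * y x = 0).card : ℝ) * Nat.card C
      = ‖∑ y : C, ∑ η : Finset Ω, χ η y‖ := by
    rw [← h5]
    simp
  rw [h6, Finset.mul_sum]
  refine (norm_sum_le _ _).trans (Finset.sum_le_sum fun y _ => ?_)
  exact norm_sum_char_le_gen hc (y : Ω → ZMod q)

end Char

section Three

local instance fact3 : Fact (Nat.Prime 3) := ⟨Nat.prime_three⟩

open ZMod in
lemma norm_char_three (t : ZMod 3) (ht : t ≠ 0) :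
    ‖(stdAddChar t : ℂ) + stdAddChar (-t)‖ ≤ 2 * exp (-log 2) := by
  have h0 : (stdAddChar (0 : ZMod 3) : ℂ) = 1 := AddChar.map_zero_eq_one _
  -- the sum over all of `ZMod 3` vanishes
  have hsum : ∑ a : ZMod 3, (stdAddChar a : ℂ) = 0 := by
    rw [AddChar.sum_eq_zero_iff_ne_zero]
    intro h
    have h1 : (stdAddChar (1 : ZMod 3) : ℂ) = stdAddChar (0 : ZMod 3) := by
      rw [h]; rfl
    have := injective_stdAddChar (N := 3) h1
    exact absurd this (by decide)
  have h2 : (stdAddChar (0 : ZMod 3) : ℂ) + stdAddChar (1 : ZMod 3) + stdAddChar (2 : ZMod 3)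
      = 0 := by
    rw [← hsum]
    exact (Fin.sum_univ_three (fun a : Fin 3 => (stdAddChar (N := 3) (a : ZMod 3) : ℂ))).symm
  have h3 : (stdAddChar t : ℂ) + stdAddChar (-t) = -1 := by
    have key : (stdAddChar (1 : ZMod 3) : ℂ) + stdAddChar (2 : ZMod 3) = -1 := by
      rw [h0] at h2
      linear_combination h2
    have ht' : t = 1 ∨ t = 2 := by
      revert ht; revert t; decide
    rcases ht' with rfl | rfl
    · have : (-1 : ZMod 3) = 2 := by decide
      rw [this]; exact key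
    · have : (-2 : ZMod 3) = 1 := by decide
      rw [this, add_comm]; exact key
  rw [h3, exp_neg, exp_log two_pos]
  norm_num

variable {P Ω : Type} [Group P] [Fintype P] [MulAction P Ω] [Fintype Ω]
  [MulAction.IsPretransitive P Ω]

open Classical in
/-- The number of sign vectors orthogonal to an invariant code over the field with three
elements. -/
theorem card_orth_code_three (C : Submodule (ZMod 3) (Ω → ZMod 3))
    (hC : ∀ σ : P, ∀ y ∈ C, (fun x => y (σ • x)) ∈ C)
    (hpos : 0 < finrank (ZMod 3) C) :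
    ((univ.filter fun η : Finset Ω => ∀ y ∈ C, ∑ x, (sg η x : ZMod 3) * y x = 0).card : ℝ)
        * (3 : ℝ) ^ finrank (ZMod 3) C
      ≤ 2 ^ Fintype.card Ω *
        (1 + 2 * (2 : ℝ) ^ (-((Fintype.card Ω : ℝ) / finrank (ZMod 3) C)))
          ^ finrank (ZMod 3) C := by
  have h1 := card_orth_le_gen (q := 3) norm_char_three C
  have h2 := sum_code_le (P := P) C hC hpos (β := log 2)
  have h3 : Nat.card C = 3 ^ finrank (ZMod 3) C := by
    have := Module.card_eq_pow_finrank (K := ZMod 3) (V := C)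
    rw [Nat.card_eq_fintype_card, this, ZMod.card]
  rw [h3] at h1
  push_cast at h1
  refine h1.trans (mul_le_mul_of_nonneg_left ?_ (by positivity))
  refine h2.trans (le_of_eq ?_)
  congr 2
  rw [Real.rpow_def_of_pos two_pos]
  congr 1
  · norm_num
  · congr 1
    ring

variable [DecidableEq Ω]

open Classical in
/-- one submodule, characteristic three -/
lemma card_one_three (U : Submodule (MonoidAlgebra (ZMod 3) P) (VV (ZMod 3) P Ω))
    (hpos : 0 < finrank (ZMod 3) U) :
    ((Finset.univ.filter fun η : Finset Ω => ∀ v ∈ U, ∑ x, (sg η x : ZMod 3) * ev v x = 0).card : ℝ)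
      ≤ 2 ^ Fintype.card Ω * (1 + 2 * (2 : ℝ) ^ (-((Fintype.card Ω : ℝ) / finrank (ZMod 3) U)))
          ^ finrank (ZMod 3) U / (3 : ℝ) ^ finrank (ZMod 3) U := by
  have hinst : (inferInstance : DecidableEq Ω) = fun a b => Classical.propDecidable (a = b) :=
    Subsingleton.elim _ _
  have h := card_orth_code_three (P := P) (Ω := Ω) (code U)
    (fun σ y hy => code_inv U σ y hy) (by rw [finrank_code]; exact hpos)
  rw [finrank_code] at h
  rw [le_div_iff₀ (by positivity)]
  refine le_trans (le_of_eq ?_) h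
  congr 1
  have e : (Finset.univ.filter fun η : Finset Ω => ∀ v ∈ U, ∑ x, (sg η x : ZMod 3) * ev v x = 0)
      = (Finset.univ.filter fun η : Finset Ω => ∀ y ∈ code U, ∑ x, (@sg Ω (fun a b => Classical.propDecidable (a = b)) η x : ZMod 3) * y x = 0) := by
    ext η
    simp only [Finset.mem_filter, Finset.mem_univ, true_and]
    constructor
    · intro h' y hy
      have := h' (mkV P y) ((mem_code U y).mp hy)
      rw [← hinst]
      exact this
    · intro h' v hv
      have := h' (ev v) ((mem_code U (ev v)).mpr hv)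
      rw [← hinst] at this
      exact this
  rw [e]
  congr!

variable (M : Submodule (MonoidAlgebra ℚ P) (VV ℚ P Ω))

/-- the bound at `q = 3` -/
theorem type_three (h3P : ¬ 3 ∣ Fintype.card P) (hm : 0 < finrank ℚ M)
    (hκ : finrank ℚ (M →ₗ[MonoidAlgebra ℚ P] VV ℚ P Ω) ≤ finrank ℚ M) :
    ((badOf M).card : ℝ) / 2 ^ Fintype.card Ω
      ≤ (1 + 2 * (2 : ℝ) ^ (-((Fintype.card Ω : ℝ) / finrank ℚ M))) ^ finrank ℚ M
        / ((3 : ℝ) ^ (finrank ℚ M - finrank ℚ (M →ₗ[MonoidAlgebra ℚ P] VV ℚ P Ω))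
          * 2 ^ finrank ℚ (M →ₗ[MonoidAlgebra ℚ P] M)) := by
  set m := finrank ℚ M with hmdef
  set κ := finrank ℚ (M →ₗ[MonoidAlgebra ℚ P] VV ℚ P Ω) with hκdef
  set δ := finrank ℚ (M →ₗ[MonoidAlgebra ℚ P] M) with hδdef
  set g := Fintype.card Ω with hg
  set E : ℝ := (1 + 2 * (2 : ℝ) ^ (-((g : ℝ) / m))) ^ m with hE
  have hE0 : 0 ≤ E := by rw [hE]; positivity
  have h1 := card_bad_mul_le M 3 h3P sg (2 ^ g * E / (3 : ℝ) ^ m) (by
    intro U hU
    have h2 := card_one_three U (by rw [hU]; exact hm)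
    rw [hU] at h2
    exact h2)
  have hne : NeZero (Nat.card P : ZMod 3) := ⟨by
    rw [Nat.card_eq_fintype_card]
    exact card_ne_zero_mod (P := P) 3 h3P⟩
  have h2 : (2 : ℝ) ^ δ
      ≤ Nat.card (red M (ZMod 3) ≃ₗ[MonoidAlgebra (ZMod 3) P] red M (ZMod 3)) := by
    have h3 := aut_ge_odd (q := 3) (R := MonoidAlgebra (ZMod 3) P) (A := red M (ZMod 3)) le_rfl
    rw [finrank_hom_red_mod M M 3 h3P] at h3
    have e : ((3 : ℕ) : ℝ) - 1 = 2 := by norm_num
    rwa [e] at h3
  have h3 : ((badOf M).card : ℝ) * (2 : ℝ) ^ δ ≤ (3 : ℝ) ^ κ * (2 ^ g * E / (3 : ℝ) ^ m) := by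
    refine le_trans (mul_le_mul_of_nonneg_left h2 (Nat.cast_nonneg _)) ?_
    push_cast at h1
    exact h1
  have h4 : (3 : ℝ) ^ κ * (2 ^ g * E / (3 : ℝ) ^ m) = 2 ^ g * (E / (3 : ℝ) ^ (m - κ)) := by
    have : (3 : ℝ) ^ m = (3 : ℝ) ^ κ * (3 : ℝ) ^ (m - κ) := by
      rw [← pow_add, Nat.add_sub_cancel' hκ]
    rw [this]
    field_simp
  rw [h4] at h3
  rw [div_le_iff₀ (by positivity), div_mul_eq_mul_div, le_div_iff₀ (by positivity)]
  calc ((badOf M).card : ℝ) * ((3 : ℝ) ^ (m - κ) * 2 ^ δ)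
      = ((badOf M).card : ℝ) * 2 ^ δ * (3 : ℝ) ^ (m - κ) := by ring
    _ ≤ 2 ^ g * (E / (3 : ℝ) ^ (m - κ)) * (3 : ℝ) ^ (m - κ) :=
        mul_le_mul_of_nonneg_right h3 (by positivity)
    _ = E * 2 ^ g := by field_simp

end Three

section Once

variable {P Ω : Type} [Group P] [Fintype P] [MulAction P Ω] [Fintype Ω] [DecidableEq Ω]
  [MulAction.IsPretransitive P Ω]

/-- a submodule which occurs once -/
lemma eq_of_iso_of_finrank (M M' : Submodule (MonoidAlgebra ℚ P) (VV ℚ P Ω))
    (hk : finrank ℚ (M →ₗ[MonoidAlgebra ℚ P] VV ℚ P Ω)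
      = finrank ℚ (M →ₗ[MonoidAlgebra ℚ P] M))
    (h : Nonempty (M ≃ₗ[MonoidAlgebra ℚ P] M')) : M' = M := by
  obtain ⟨e⟩ := h
  have : Module.Finite ℚ M := Module.Finite.of_injective (M.subtype.restrictScalars ℚ)
    Subtype.val_injective
  have : Module.Finite ℚ (M →ₗ[MonoidAlgebra ℚ P] VV ℚ P Ω) :=
    Pool.Agent.Lib.MP_938ce2_ag_h85d.finite_hom
  have : Module.Finite ℚ (M →ₗ[MonoidAlgebra ℚ P] M) :=
    Pool.Agent.Lib.MP_938ce2_ag_h85d.finite_hom
  let F : (M →ₗ[MonoidAlgebra ℚ P] M) →ₗ[ℚ] (M →ₗ[MonoidAlgebra ℚ P] VV ℚ P Ω) :=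
    { toFun := fun φ => M.subtype.comp φ
      map_add' := fun _ _ => rfl
      map_smul' := fun _ _ => rfl }
  have hF : Function.Injective F := by
    intro φ ψ h
    apply LinearMap.ext
    intro s
    apply Subtype.ext
    exact congrArg (fun g : M →ₗ[MonoidAlgebra ℚ P] VV ℚ P Ω => g s) h
  have hr : LinearMap.range F = ⊤ :=
    Submodule.eq_top_of_finrank_eq ((LinearMap.finrank_range_of_inj hF).trans hk.symm)
  have hF2 : Function.Surjective F := LinearMap.range_eq_top.1 hr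
  obtain ⟨φ, hφ⟩ := hF2 (M'.subtype.comp e.toLinearMap)
  have hle : M' ≤ M := by
    intro v hv
    have h1 : (F φ) (e.symm ⟨v, hv⟩) = v := by
      rw [hφ]
      show ((e (e.symm ⟨v, hv⟩) : M') : VV ℚ P Ω) = v
      rw [e.apply_symm_apply]
    rw [← h1]
    exact (φ (e.symm ⟨v, hv⟩)).2
  -- equality by dimension
  have hfin : finrank ℚ (M'.restrictScalars ℚ) = finrank ℚ (M.restrictScalars ℚ) := by
    exact (e.restrictScalars ℚ).finrank_eq.symm
  have hle' : M'.restrictScalars ℚ ≤ M.restrictScalars ℚ := hle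
  have := Submodule.eq_of_le_of_finrank_eq hle' hfin
  apply le_antisymm hle
  intro v hv
  have h2 : v ∈ M.restrictScalars ℚ := hv
  rw [← this] at h2
  exact h2

variable (M : Submodule (MonoidAlgebra ℚ P) (VV ℚ P Ω))

/-- the bound for a type which occurs once -/
theorem type_once
    (hk : finrank ℚ (M →ₗ[MonoidAlgebra ℚ P] VV ℚ P Ω)
      = finrank ℚ (M →ₗ[MonoidAlgebra ℚ P] M))
    (hsum : ∀ v ∈ M, ∑ x, ev v x = 0) :
    ((badOf M).card : ℝ) / 2 ^ Fintype.card Ω ≤ 1 / 2 ^ finrank ℚ M := by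
  classical
  have h := card_orth_set_le (Ω := Ω) (code M)
  rw [finrank_code] at h
  have hsub : badOf M ⊆ (Finset.univ.filter fun η : Finset Ω => ∀ y ∈ code M, ∑ x ∈ η, y x = 0) := by
    intro η hη
    obtain ⟨M', hM', hv⟩ := (mem_badOf M η).mp hη
    have hMM := eq_of_iso_of_finrank M M' hk hM'
    subst hMM
    rw [Finset.mem_filter]
    refine ⟨Finset.mem_univ _, ?_⟩
    intro y hy
    have hyM := (mem_code M' y).mp hy
    have e1 := hv _ hyM
    have e2 := hsum _ hyM
    have e3 : ∀ x, ((sg η x : ℤ) : ℚ) * ev (mkV P y) x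
        = 2 * (if x ∈ η then y x else 0) - ev (mkV P y) x := by
      intro x
      unfold sg
      rw [ev_mkV]
      by_cases hx : x ∈ η
      · rw [if_pos hx, if_pos hx]
        push_cast
        ring
      · rw [if_neg hx, if_neg hx]
        push_cast
        ring
    rw [Finset.sum_congr rfl fun x _ => e3 x, Finset.sum_sub_distrib, e2, sub_zero,
      ← Finset.mul_sum] at e1
    have e4 := (mul_eq_zero.mp e1).resolve_left two_ne_zero
    rw [Finset.sum_ite_mem, Finset.univ_inter] at e4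
    exact e4
  rw [div_le_div_iff₀ (by positivity) (by positivity), one_mul]
  have h2 : ((badOf M).card : ℝ) ≤
      ((Finset.univ.filter fun η : Finset Ω => ∀ y ∈ code M, ∑ x ∈ η, y x = 0).card : ℝ) := by
    exact_mod_cast Finset.card_le_card hsub
  refine le_trans (mul_le_mul_of_nonneg_right h2 (by positivity)) ?_
  exact_mod_cast h

end Once

end Pool.Agent.Lib.MP_938ce2_ag_h88
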