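import Mathlib
import Pool.Agent.Lib.MP_938ce2_ag_h79.Numeric

/-!
Module M7 of Theorem U: the numerical estimate.
-/

set_option autoImplicit false

namespace Pool.Agent.Lib.MP_938ce2_ag_h88

open Finset Real
open Pool.Agent.Lib.MP_938ce2_ag_h79 (exists_prime_not_dvd)

/-! ### Large `e` -/

lemma pow_le_of_three_le {k : ℕ} (hk : 3 ≤ k) : (1 + 2 * (1 / 2 : ℝ) ^ k) ^ k ≤ 125 / 64 := by
  rcases Nat.lt_or_ge k 4 with h | h
  · have : k = 3 := by omega
    subst this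
    norm_num
  · have h1 : ∀ j : ℕ, 4 ≤ j → (j : ℝ) * (2 * (1 / 2 : ℝ) ^ j) ≤ 1 / 2 := by
      intro j hj
      induction j, hj using Nat.le_induction with
      | base => norm_num
      | succ j hj ih =>
        have hj4 : (4 : ℝ) ≤ j := by exact_mod_cast hj
        have h2 : 0 < (1 / 2 : ℝ) ^ j := by positivity
        rw [pow_succ]
        push_cast
        nlinarith
    have h2 := h1 k h
    calc (1 + 2 * (1 / 2 : ℝ) ^ k) ^ k ≤ (exp (2 * (1 / 2 : ℝ) ^ k)) ^ k := by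
          gcongr
          have := add_one_le_exp (2 * (1 / 2 : ℝ) ^ k)
          linarith
      _ = exp (k * (2 * (1 / 2 : ℝ) ^ k)) := by rw [← exp_nat_mul]
      _ ≤ exp (1 / 2) := exp_le_exp.2 h2
      _ ≤ 125 / 64 := by
          have h3 : exp (1 / 2) ^ 2 = exp 1 := by
            rw [← exp_nat_mul]; norm_num
          have h4 := exp_one_lt_d9
          have h5 : 0 < exp (1 / 2) := exp_pos _
          nlinarith

/-- the exponential bound for every constituent -/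
lemma large_bound {g m k n d : ℕ} {N : ℝ} (hm : m = n * d) (hk : 1 ≤ k) (hkn : k ≤ n)
    (hn : Odd n) (hd : 1 ≤ d) (hkm : k * m ≤ g)
    (ha : N ≤ (1 + 2 * (2 : ℝ) ^ (-((g : ℝ) / m))) ^ m / ((3 : ℝ) ^ (m - k * d) * 2 ^ d))
    (hb : k = 1 → N ≤ 1 / 2 ^ m) :
    N ≤ (125 / 128 : ℝ) ^ (d * (n - k) + d) := by
  have hn1 : 1 ≤ n := hk.trans hkn
  have hm1 : 1 ≤ m := by rw [hm]; exact Nat.mul_pos hn1 hd
  have hmR : (0 : ℝ) < m := by exact_mod_cast hm1
  rcases Nat.lt_or_ge k 2 with h | h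
  · have hk1 : k = 1 := by omega
    have h1 : d * (n - k) + d = m := by
      rw [hm, hk1]
      obtain ⟨n', rfl⟩ := Nat.exists_eq_add_of_le hn1
      have : 1 + n' - 1 = n' := by omega
      rw [this]
      ring
    rw [h1]
    refine (hb hk1).trans ?_
    rw [← one_div_pow]
    exact pow_le_pow_left₀ (by norm_num) (by norm_num) m
  · -- `k ≥ 2`
    set s : ℝ := 1 + 2 * (1 / 2 : ℝ) ^ k with hs
    have hs0 : 0 < s := by rw [hs]; positivity
    have hs32 : s ≤ 3 / 2 := by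
      rw [hs]
      have : (1 / 2 : ℝ) ^ k ≤ (1 / 2 : ℝ) ^ 2 :=
        pow_le_pow_of_le_one (by norm_num) (by norm_num) h
      nlinarith
    have hgm : (k : ℝ) ≤ (g : ℝ) / m := by
      rw [le_div_iff₀ hmR]
      exact_mod_cast hkm
    have hrp : (2 : ℝ) ^ (-((g : ℝ) / m)) ≤ (1 / 2 : ℝ) ^ k := by
      have h1 : (2 : ℝ) ^ (-((g : ℝ) / m)) ≤ (2 : ℝ) ^ (-(k : ℝ)) := by
        apply rpow_le_rpow_of_exponent_le (by norm_num)
        linarith
      refine h1.trans (le_of_eq ?_)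
      rw [rpow_neg (by norm_num), rpow_natCast, one_div, inv_pow]
    have h0 : (0 : ℝ) ≤ (2 : ℝ) ^ (-((g : ℝ) / m)) := by positivity
    have hsle : 1 + 2 * (2 : ℝ) ^ (-((g : ℝ) / m)) ≤ s := by
      rw [hs]
      linarith
    have h1 : N ≤ s ^ m / ((3 : ℝ) ^ (m - k * d) * 2 ^ d) := by
      refine ha.trans ?_
      apply div_le_div_of_nonneg_right _ (by positivity)
      exact pow_le_pow_left₀ (by positivity) hsle m
    have hmk : m - k * d = (n - k) * d := by rw [hm, Nat.sub_mul]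
    have hsm : s ^ m = (s ^ k) ^ d * (s ^ (n - k)) ^ d := by
      rw [← mul_pow, ← pow_add, ← pow_mul, Nat.add_sub_cancel' hkn, hm]
    have h2 : s ^ m / ((3 : ℝ) ^ (m - k * d) * 2 ^ d) = (s ^ k / 2 * (s / 3) ^ (n - k)) ^ d := by
      rw [hsm, hmk, pow_mul, mul_pow, div_pow, div_pow, div_pow]
      field_simp
    rw [h2] at h1
    have h3 : (s / 3) ^ (n - k) ≤ (1 / 2 : ℝ) ^ (n - k) :=
      pow_le_pow_left₀ (by positivity) (by linarith) _
    have h4 : s ^ k / 2 * (s / 3) ^ (n - k) ≤ (125 / 128 : ℝ) ^ (n - k + 1) := by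
      rcases Nat.lt_or_ge k 3 with hk3 | hk3
      · have hk2 : k = 2 := by omega
        have hn3 : 3 ≤ n := by
          obtain ⟨t, ht⟩ := hn
          omega
        obtain ⟨r, hr⟩ := Nat.exists_eq_add_of_le hn3
        have hnk : n - k = r + 1 := by omega
        rw [hnk]
        rw [hnk] at h3
        have hs2 : s ^ k / 2 ≤ 9 / 8 := by
          rw [hk2]
          nlinarith
        calc s ^ k / 2 * (s / 3) ^ (r + 1) ≤ 9 / 8 * (1 / 2 : ℝ) ^ (r + 1) := by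
              apply mul_le_mul hs2 h3 (by positivity) (by norm_num)
          _ = 9 / 16 * (1 / 2 : ℝ) ^ r := by ring
          _ ≤ (125 / 128 : ℝ) ^ 2 * (125 / 128 : ℝ) ^ r := by
              apply mul_le_mul (by norm_num) _ (by positivity) (by positivity)
              exact pow_le_pow_left₀ (by norm_num) (by norm_num) r
          _ = (125 / 128 : ℝ) ^ (r + 1 + 1) := by ring
      · have hsk : s ^ k / 2 ≤ 125 / 128 := by
          have := pow_le_of_three_le hk3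
          rw [← hs] at this
          linarith
        calc s ^ k / 2 * (s / 3) ^ (n - k) ≤ 125 / 128 * (1 / 2 : ℝ) ^ (n - k) := by
              apply mul_le_mul hsk h3 (by positivity) (by norm_num)
          _ ≤ 125 / 128 * (125 / 128 : ℝ) ^ (n - k) :=
              mul_le_mul_of_nonneg_left
                (pow_le_pow_left₀ (by norm_num) (by norm_num) _) (by norm_num)
          _ = (125 / 128 : ℝ) ^ (n - k + 1) := by ring
    have h5 : (125 / 128 : ℝ) ^ (d * (n - k) + d) = ((125 / 128 : ℝ) ^ (n - k + 1)) ^ d := by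
      rw [← pow_mul]
      congr 1
      ring
    rw [h5]
    refine h1.trans ?_
    gcongr

/-! ### The choice of the prime -/

/-- a prime not dividing `g` of size about the square root of `y` -/
lemma exists_q {g : ℕ} {y : ℝ} (hg : (1 : ℝ) ≤ g) (hy0 : 0 < y) (F2 : (2 : ℝ) ^ 42 * g ≤ y ^ 3) :
    ∃ q : ℕ, q.Prime ∧ q ≠ 2 ∧ ¬ q ∣ g ∧ sqrt y / 128 ≤ (q : ℝ) - 1 ∧ (q : ℝ) ^ 2 ≤ y ∧
      (1 : ℝ) ≤ (q : ℝ) - 1 := by
  set Y : ℝ := Real.sqrt y with hY
  have hYsq : Y ^ 2 = y := Real.sq_sqrt hy0.le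
  have hY0 : 0 < Y := Real.sqrt_pos.2 hy0
  have hY6 : Y ^ 6 = y ^ 3 := by rw [← hYsq]; ring
  have hY128 : (128 : ℝ) ≤ Y := by
    by_contra hcon
    push Not at hcon
    have h1 : Y ^ 6 < 128 ^ 6 := by gcongr
    rw [hY6] at h1
    have h2 : (2 : ℝ) ^ 42 * 1 ≤ 2 ^ 42 * g := by gcongr
    have h3 : (128 : ℝ) ^ 6 = 2 ^ 42 * 1 := by norm_num
    linarith
  set n : ℕ := ⌊Y / 64⌋₊ with hn
  have hn1 : (n : ℝ) ≤ Y / 64 := Nat.floor_le (by positivity)
  have hn2 : Y / 64 < n + 1 := Nat.lt_floor_add_one _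
  have hn3 : Y / 128 ≤ n := by linarith
  have hn4 : (1 : ℝ) ≤ n := by linarith
  have hn5 : 1 ≤ n := by exact_mod_cast hn4
  have hgn : g ≤ n ^ 6 := by
    have h1 : (g : ℝ) ≤ (n : ℝ) ^ 6 := by
      have h2 : (Y / 128) ^ 6 ≤ (n : ℝ) ^ 6 := by gcongr
      refine le_trans ?_ h2
      rw [div_pow, hY6, le_div_iff₀ (by positivity)]
      calc (g : ℝ) * 128 ^ 6 = 2 ^ 42 * g := by ring
        _ ≤ y ^ 3 := F2
    exact_mod_cast h1
  have hgN : 1 ≤ g := by exact_mod_cast hg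
  have hq : ∃ q : ℕ, q.Prime ∧ n < q ∧ q ≤ 64 * n ∧ ¬ q ∣ g := by
    rcases Nat.lt_or_ge g (n ^ 6) with h | h
    · exact exists_prime_not_dvd g n (by omega) (by omega) h
    · by_contra hcon
      push Not at hcon
      have hge : g = n ^ 6 := le_antisymm hgn h
      obtain ⟨p, hp, hp1, hp2⟩ := Nat.exists_prime_lt_and_le_two_mul n (by omega)
      have hd := hcon p hp hp1 (by omega)
      rw [hge] at hd
      have := Nat.le_of_dvd (by omega) (hp.dvd_of_dvd_pow hd)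
      omega
  obtain ⟨q, hqp, hq1, hq2, hq3⟩ := hq
  have hq1' : (n : ℝ) ≤ (q : ℝ) - 1 := by
    have : n + 1 ≤ q := hq1
    have h : ((n + 1 : ℕ) : ℝ) ≤ q := by exact_mod_cast this
    push_cast at h
    linarith
  have hq2' : (q : ℝ) ≤ Y := by
    have h : ((q : ℕ) : ℝ) ≤ ((64 * n : ℕ) : ℝ) := by exact_mod_cast hq2
    push_cast at h
    linarith
  have hq0 : (0 : ℝ) < q := by linarith
  refine ⟨q, hqp, ?_, hq3, by linarith, ?_, by linarith⟩
  · rintro rfl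
    -- `q = 2` would force `n = 1` and `g = 1`
    have hn1' : n = 1 := by omega
    have hY256 : Y < 128 := by
      rw [hn1'] at hn2
      push_cast at hn2
      linarith
    linarith
  · rw [← hYsq]
    gcongr

/-- few multiplicities, `e ≥ 4` -/
lemma mid_bound {g m e : ℕ} {N L : ℝ} (hL : L = log g) (hL1 : 1 ≤ L)
    (hm : 1 ≤ m) (he : 4 ≤ e) (heL : (e : ℝ) < 100 * L) (hm2 : (m : ℝ) ^ 2 ≤ 100 * L * g)
    (hg : (2 : ℝ) ^ 108 * L ^ 9 ≤ g)
    (hN : ∀ q : ℕ, q.Prime → q ≠ 2 → ¬ q ∣ g → e < q →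
      N ≤ (1 + ((q : ℝ) - 1) * exp (-(2 * g / (m * (q : ℝ) ^ 2)))) ^ m / ((q : ℝ) - 1) ^ e) :
    N ≤ 3 * 2 ^ 28 * (m : ℝ) ^ 2 * L ^ 2 / (g : ℝ) ^ 2 := by
  have hL0 : 0 < L := by linarith
  have hL9 : 1 ≤ L ^ 9 := one_le_pow₀ hL1
  have hgbig : (2 : ℝ) ^ 108 ≤ g := by nlinarith
  have hg0 : (0 : ℝ) < g := by
    have : (0 : ℝ) < 2 ^ 108 := by positivity
    linarith
  have hg1 : (1 : ℝ) ≤ g := by
    have : (1 : ℝ) ≤ 2 ^ 108 := by norm_num
    linarith
  have hm0 : (0 : ℝ) < m := by exact_mod_cast hm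
  set y : ℝ := g / (m * L) with hy
  have hy0 : 0 < y := by positivity
  have F1 : (g : ℝ) / (100 * L ^ 3) ≤ y ^ 2 := by
    rw [hy, div_pow, div_le_div_iff₀ (by positivity) (by positivity)]
    have : (m * L) ^ 2 = (m : ℝ) ^ 2 * L ^ 2 := by ring
    rw [this]
    calc (g : ℝ) * ((m : ℝ) ^ 2 * L ^ 2) ≤ g * ((100 * L * g) * L ^ 2) := by gcongr
      _ = (g : ℝ) ^ 2 * (100 * L ^ 3) := by ring
  have F2 : (2 : ℝ) ^ 42 * g ≤ y ^ 3 := by
    have h1 : ((2 : ℝ) ^ 42 * g) ^ 2 ≤ (y ^ 3) ^ 2 := by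
      have h2 : (y ^ 3) ^ 2 = (y ^ 2) ^ 3 := by ring
      rw [h2]
      have h3 : ((g : ℝ) / (100 * L ^ 3)) ^ 3 ≤ (y ^ 2) ^ 3 := by gcongr
      refine le_trans ?_ h3
      rw [div_pow, le_div_iff₀ (by positivity)]
      have h4 : ((2 : ℝ) ^ 42 * g) ^ 2 * (100 * L ^ 3) ^ 3
          = (2 ^ 84 * 1000000 * L ^ 9) * g ^ 2 := by ring
      rw [h4]
      have h5 : (2 : ℝ) ^ 84 * 1000000 * L ^ 9 ≤ 2 ^ 108 * L ^ 9 := by
        have : (2 : ℝ) ^ 84 * 1000000 ≤ 2 ^ 108 := by norm_num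
        exact mul_le_mul_of_nonneg_right this (by positivity)
      calc (2 ^ 84 * 1000000 * L ^ 9) * (g : ℝ) ^ 2 ≤ g * g ^ 2 := by
            apply mul_le_mul_of_nonneg_right (h5.trans hg) (by positivity)
        _ = (g : ℝ) ^ 3 := by ring
    exact le_of_sq_le_sq h1 (by positivity)
  obtain ⟨q, hqp, hqne, hq3, hqY, hqsq, hq1⟩ := exists_q hg1 hy0 F2
  set Y : ℝ := Real.sqrt y with hY
  have hYsq : Y ^ 2 = y := Real.sq_sqrt hy0.le
  have hY0 : 0 < Y := Real.sqrt_pos.2 hy0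
  have hq0 : (0 : ℝ) < q := by linarith
  have heq : e < q := by
    have h1 : (100 * L) ^ 4 ≤ (Y / 128) ^ 4 := by
      have h2 : (Y / 128) ^ 4 = y ^ 2 / 2 ^ 28 := by rw [← hYsq]; ring
      rw [h2, le_div_iff₀ (by positivity)]
      refine le_trans ?_ F1
      rw [le_div_iff₀ (by positivity)]
      have h3 : (100 * L) ^ 4 * 2 ^ 28 * (100 * L ^ 3) = (10 ^ 10 * 2 ^ 28) * L ^ 7 := by ring
      rw [h3]
      refine le_trans ?_ hg
      have h4 : L ^ 7 ≤ L ^ 9 := pow_le_pow_right₀ hL1 (by norm_num)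
      have h5 : (10 : ℝ) ^ 10 * 2 ^ 28 ≤ 2 ^ 108 := by norm_num
      exact mul_le_mul h5 h4 (by positivity) (by positivity)
    have h6 : 100 * L ≤ Y / 128 := le_of_pow_le_pow_left₀ (by norm_num) (by positivity) h1
    have h7 : (e : ℝ) < q := by linarith
    exact_mod_cast h7
  have hmain := hN q hqp hqne hq3 heq
  have hmq : (m : ℝ) * (q : ℝ) ^ 2 * L ≤ g := by
    have : (m : ℝ) * (q : ℝ) ^ 2 * L ≤ m * y * L := by gcongr
    refine this.trans (le_of_eq ?_)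
    rw [hy]
    field_simp
  have hexp : exp (-(2 * g / (m * (q : ℝ) ^ 2))) ≤ 1 / (g : ℝ) ^ 2 := by
    have h1 : 2 * L ≤ 2 * g / (m * (q : ℝ) ^ 2) := by
      rw [le_div_iff₀ (by positivity)]
      nlinarith
    have h2 : exp (-(2 * g / (m * (q : ℝ) ^ 2))) ≤ exp (-(2 * L)) := by
      apply exp_le_exp.2
      linarith
    refine h2.trans (le_of_eq ?_)
    rw [hL, exp_neg, one_div]
    congr 1
    rw [two_mul, exp_add, exp_log hg0]
    ring
  have hx : ((q : ℝ) - 1) * exp (-(2 * g / (m * (q : ℝ) ^ 2))) ≤ 1 / m := by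
    have hq1n : 0 ≤ (q : ℝ) - 1 := by linarith
    calc ((q : ℝ) - 1) * exp (-(2 * g / (m * (q : ℝ) ^ 2)))
        ≤ ((q : ℝ) - 1) * (1 / (g : ℝ) ^ 2) := by gcongr
      _ ≤ 1 / m := by
        rw [mul_one_div, div_le_div_iff₀ (by positivity) hm0, one_mul]
        have h1 : (q : ℝ) - 1 ≤ (q : ℝ) ^ 2 := by nlinarith
        have h2 : (m : ℝ) * (q : ℝ) ^ 2 ≤ g := by
          have h3 : (m : ℝ) * (q : ℝ) ^ 2 ≤ (m : ℝ) * (q : ℝ) ^ 2 * L := by
            have : 0 ≤ (m : ℝ) * (q : ℝ) ^ 2 := by positivity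
            nlinarith
          linarith
        calc ((q : ℝ) - 1) * m ≤ (q : ℝ) ^ 2 * m := by gcongr
          _ ≤ g := by linarith
          _ ≤ (g : ℝ) ^ 2 := by nlinarith
  have hx0 : 0 ≤ ((q : ℝ) - 1) * exp (-(2 * g / (m * (q : ℝ) ^ 2))) := by
    have : 0 ≤ (q : ℝ) - 1 := by linarith
    positivity
  have hpow : (1 + ((q : ℝ) - 1) * exp (-(2 * g / (m * (q : ℝ) ^ 2)))) ^ m ≤ 3 := by
    calc (1 + ((q : ℝ) - 1) * exp (-(2 * g / (m * (q : ℝ) ^ 2)))) ^ m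
        ≤ (exp (1 / m)) ^ m := by
          gcongr
          refine le_trans ?_ (add_one_le_exp _)
          linarith
      _ = exp 1 := by
          rw [← exp_nat_mul]
          congr 1
          field_simp
      _ ≤ 3 := by
          have := exp_one_lt_d9
          linarith
  have hq4 : y ^ 2 / 2 ^ 28 ≤ ((q : ℝ) - 1) ^ e := by
    calc y ^ 2 / 2 ^ 28 = (Y / 128) ^ 4 := by rw [← hYsq]; ring
      _ ≤ ((q : ℝ) - 1) ^ 4 := by gcongr
      _ ≤ ((q : ℝ) - 1) ^ e := pow_le_pow_right₀ hq1 he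
  calc N ≤ _ := hmain
    _ ≤ 3 / (y ^ 2 / 2 ^ 28) := by
      apply div_le_div₀ (by norm_num) hpow (by positivity) hq4
    _ = 3 * 2 ^ 28 * (m : ℝ) ^ 2 * L ^ 2 / (g : ℝ) ^ 2 := by
      rw [hy]
      field_simp

/-- the case `e = 2` -/
lemma two_bound {g m : ℕ} {N L : ℝ} (hL : L = log g) (hL1 : 1 ≤ L)
    (hm : 3 ≤ m) (hm2 : (m : ℝ) ^ 2 ≤ 2 * g) (hmg : m ≤ g)
    (hg : (2 : ℝ) ^ 108 * L ^ 9 ≤ g)
    (hN : ∀ q : ℕ, q.Prime → q ≠ 2 → ¬ q ∣ g → 2 < q → (m : ℝ) * (q : ℝ) ^ 2 ≤ g →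
      N ≤ (1 + 3 * exp (-(g / (m * (q : ℝ) ^ 2)))) ^ m / ((q : ℝ) - 1) ^ 2) :
    N ≤ 3 * 2 ^ 15 * (m * log m) / g := by
  have hL0 : 0 < L := by linarith
  have hL9 : 1 ≤ L ^ 9 := one_le_pow₀ hL1
  have hgbig : (2 : ℝ) ^ 108 ≤ g := by nlinarith
  have hg0 : (0 : ℝ) < g := by
    have : (0 : ℝ) < 2 ^ 108 := by positivity
    linarith
  have hg1 : (1 : ℝ) ≤ g := by
    have : (1 : ℝ) ≤ 2 ^ 108 := by norm_num
    linarith
  have hm3 : (3 : ℝ) ≤ m := by exact_mod_cast hm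
  have hm0 : (0 : ℝ) < m := by linarith
  set l : ℝ := log m with hl
  have hl1 : 1 ≤ l := by
    rw [hl, le_log_iff_exp_le hm0]
    have := exp_one_lt_d9
    linarith
  have hl0 : 0 < l := by linarith
  have hlL : l ≤ L := by
    rw [hl, hL]
    apply log_le_log hm0
    exact_mod_cast hmg
  set y : ℝ := g / (2 * (m * l)) with hy
  have hy0 : 0 < y := by positivity
  have F1 : (g : ℝ) / (8 * L ^ 2) ≤ y ^ 2 := by
    rw [hy, div_pow, div_le_div_iff₀ (by positivity) (by positivity)]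
    have : (2 * (m * l)) ^ 2 = 4 * ((m : ℝ) ^ 2 * l ^ 2) := by ring
    rw [this]
    calc (g : ℝ) * (4 * ((m : ℝ) ^ 2 * l ^ 2)) ≤ g * (4 * ((2 * g) * L ^ 2)) := by gcongr
      _ = (g : ℝ) ^ 2 * (8 * L ^ 2) := by ring
  have F2 : (2 : ℝ) ^ 42 * g ≤ y ^ 3 := by
    have h1 : ((2 : ℝ) ^ 42 * g) ^ 2 ≤ (y ^ 3) ^ 2 := by
      have h2 : (y ^ 3) ^ 2 = (y ^ 2) ^ 3 := by ring
      rw [h2]
      have h3 : ((g : ℝ) / (8 * L ^ 2)) ^ 3 ≤ (y ^ 2) ^ 3 := by gcongr
      refine le_trans ?_ h3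
      rw [div_pow, le_div_iff₀ (by positivity)]
      have h4 : ((2 : ℝ) ^ 42 * g) ^ 2 * (8 * L ^ 2) ^ 3
          = (2 ^ 84 * 512 * L ^ 6) * g ^ 2 := by ring
      rw [h4]
      have h5 : (2 : ℝ) ^ 84 * 512 * L ^ 6 ≤ 2 ^ 108 * L ^ 9 := by
        have h6 : (2 : ℝ) ^ 84 * 512 ≤ 2 ^ 108 := by norm_num
        have h7 : L ^ 6 ≤ L ^ 9 := pow_le_pow_right₀ hL1 (by norm_num)
        exact mul_le_mul h6 h7 (by positivity) (by positivity)
      calc (2 ^ 84 * 512 * L ^ 6) * (g : ℝ) ^ 2 ≤ g * g ^ 2 := by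
            apply mul_le_mul_of_nonneg_right (h5.trans hg) (by positivity)
        _ = (g : ℝ) ^ 3 := by ring
    exact le_of_sq_le_sq h1 (by positivity)
  obtain ⟨q, hqp, hqne, hq3, hqY, hqsq, hq1⟩ := exists_q hg1 hy0 F2
  set Y : ℝ := Real.sqrt y with hY
  have hYsq : Y ^ 2 = y := Real.sq_sqrt hy0.le
  have hY0 : 0 < Y := Real.sqrt_pos.2 hy0
  have hq0 : (0 : ℝ) < q := by linarith
  have hq2 : 2 < q := by
    have := hqp.two_le
    omega
  have hmq : (m : ℝ) * (q : ℝ) ^ 2 * (2 * l) ≤ g := by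
    have : (m : ℝ) * (q : ℝ) ^ 2 * (2 * l) ≤ m * y * (2 * l) := by gcongr
    refine this.trans (le_of_eq ?_)
    rw [hy]
    field_simp
  have hmq2 : (m : ℝ) * (q : ℝ) ^ 2 ≤ g := by
    have : 0 ≤ (m : ℝ) * (q : ℝ) ^ 2 := by positivity
    nlinarith
  have hmain := hN q hqp hqne hq3 hq2 hmq2
  have hexp : exp (-(g / (m * (q : ℝ) ^ 2))) ≤ 1 / (m : ℝ) ^ 2 := by
    have h1 : 2 * l ≤ g / (m * (q : ℝ) ^ 2) := by
      rw [le_div_iff₀ (by positivity)]
      linarith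
    have h2 : exp (-(g / (m * (q : ℝ) ^ 2))) ≤ exp (-(2 * l)) := by
      apply exp_le_exp.2
      linarith
    refine h2.trans (le_of_eq ?_)
    rw [hl, exp_neg, one_div]
    congr 1
    rw [two_mul, exp_add, exp_log hm0]
    ring
  have hpow : (1 + 3 * exp (-(g / (m * (q : ℝ) ^ 2)))) ^ m ≤ 3 := by
    calc (1 + 3 * exp (-(g / (m * (q : ℝ) ^ 2)))) ^ m
        ≤ (exp (1 / m)) ^ m := by
          gcongr
          refine le_trans ?_ (add_one_le_exp _)
          have h1 : 3 * (1 / (m : ℝ) ^ 2) ≤ 1 / m := by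
            rw [mul_one_div, div_le_div_iff₀ (by positivity) hm0]
            nlinarith
          linarith
      _ = exp 1 := by
          rw [← exp_nat_mul]
          congr 1
          field_simp
      _ ≤ 3 := by
          have := exp_one_lt_d9
          linarith
  have hq4 : y / 2 ^ 14 ≤ ((q : ℝ) - 1) ^ 2 := by
    calc y / 2 ^ 14 = (Y / 128) ^ 2 := by rw [← hYsq]; ring
      _ ≤ ((q : ℝ) - 1) ^ 2 := by gcongr
  calc N ≤ _ := hmain
    _ ≤ 3 / (y / 2 ^ 14) := by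
      apply div_le_div₀ (by norm_num) hpow (by positivity) hq4
    _ = 3 * 2 ^ 15 * (m * l) / g := by
      rw [hy]
      field_simp

/-- the threshold -/
lemma exists_threshold (ε CC : ℝ) (hε : 0 < ε) : ∃ g₀ : ℕ, ∀ g : ℕ, g₀ ≤ g →
    (2 : ℝ) ^ 108 * log g ^ 9 ≤ g ∧ 1 ≤ log g ∧ (1 : ℝ) / g ≤ ε ∧
      3 * 2 ^ 28 * 100 * log g ^ 3 / g ≤ ε ∧ CC * (g : ℝ) ^ (-(1 / 4 : ℝ)) ≤ ε ∧ (1 : ℝ) ≤ g := by
  have h1 := (isLittleO_pow_log_id_atTop (n := 9)).def (c := 1 / 2 ^ 108) (by positivity)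
  have h2 := (isLittleO_pow_log_id_atTop (n := 3)).def
    (c := ε / (3 * 2 ^ 28 * 100)) (by positivity)
  have h3 : ∀ᶠ x : ℝ in Filter.atTop, exp 1 ≤ x := Filter.eventually_ge_atTop _
  have h4 : ∀ᶠ x : ℝ in Filter.atTop, 1 / ε ≤ x := Filter.eventually_ge_atTop _
  have h5 : ∀ᶠ x : ℝ in Filter.atTop, CC * x ^ (-(1 / 4 : ℝ)) < ε := by
    have h6 : Filter.Tendsto (fun x : ℝ => CC * x ^ (-(1 / 4 : ℝ))) Filter.atTop (nhds (CC * 0)) :=
      (tendsto_rpow_neg_atTop (by norm_num)).const_mul CC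
    rw [mul_zero] at h6
    exact h6.eventually_lt_const hε
  obtain ⟨x0, hx0⟩ := Filter.eventually_atTop.1 (h1.and (h2.and (h3.and (h4.and h5))))
  refine ⟨⌈x0⌉₊, fun g hg => ?_⟩
  have hgx : x0 ≤ (g : ℝ) := (Nat.le_ceil x0).trans (by exact_mod_cast hg)
  obtain ⟨a1, a2, a3, a4, a5⟩ := hx0 g hgx
  have he := add_one_le_exp (1 : ℝ)
  have hg1 : (1 : ℝ) ≤ g := by linarith
  have hg0 : (0 : ℝ) < g := by linarith
  have hL : 1 ≤ log g := by
    rw [le_log_iff_exp_le hg0]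
    exact a3
  simp only [id_eq, norm_eq_abs] at a1 a2
  rw [abs_of_pos (by positivity), abs_of_pos hg0] at a1 a2
  refine ⟨?_, hL, ?_, ?_, a5.le, hg1⟩
  · calc (2 : ℝ) ^ 108 * log g ^ 9 ≤ 2 ^ 108 * (1 / 2 ^ 108 * (g : ℝ)) := by gcongr
      _ = (g : ℝ) := by field_simp
  · rw [div_le_iff₀ hg0]
    rw [div_le_iff₀ hε] at a4
    linarith
  · rw [div_le_iff₀ hg0]
    calc 3 * 2 ^ 28 * 100 * log g ^ 3 ≤ 3 * 2 ^ 28 * 100 * (ε / (3 * 2 ^ 28 * 100) * g) := by
          gcongr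
      _ = ε * g := by field_simp

/-- **Module M7.** The sum of the bounds of all constituents tends to zero. -/
theorem numericU (CM : ℕ → ℝ) (ε : ℝ) (hε : 0 < ε) :
    ∃ g₀ : ℕ, ∀ (ι : Type) [Fintype ι] (g : ℕ) (m k n d : ι → ℕ) (N : ι → ℝ), g₀ ≤ g →
    (∀ i, m i = n i * d i) → (∀ i, 1 ≤ k i) → (∀ i, k i ≤ n i) → (∀ i, Odd (n i)) →
    (∀ i, 2 ≤ d i) → (∀ i, Even (d i)) → (∑ i, k i * m i ≤ g) →
    (∀ i, N i ≤ (1 + 2 * (2 : ℝ) ^ (-((g : ℝ) / m i))) ^ m i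
      / ((3 : ℝ) ^ (m i - k i * d i) * 2 ^ d i)) →
    (∀ i, k i = 1 → N i ≤ 1 / 2 ^ m i) →
    (∀ (i) (q : ℕ), q.Prime → q ≠ 2 → ¬ q ∣ g → d i * (n i - k i) + d i < q →
      N i ≤ (1 + ((q : ℝ) - 1) * exp (-(2 * g / (m i * (q : ℝ) ^ 2)))) ^ m i
        / ((q : ℝ) - 1) ^ (d i * (n i - k i) + d i)) →
    (∀ (i) (q : ℕ), q.Prime → q ≠ 2 → ¬ q ∣ g → d i * (n i - k i) + d i < q →
      (m i : ℝ) * (q : ℝ) ^ 2 ≤ g →
      N i ≤ (1 + 3 * exp (-(g / (m i * (q : ℝ) ^ 2)))) ^ m i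
        / ((q : ℝ) - 1) ^ (d i * (n i - k i) + d i)) →
    (∀ i, d i * (n i - k i) + d i = 2 → N i ≤ CM (m i) * (g : ℝ) ^ (-(5 / 4 : ℝ))) →
    ∑ i, N i ≤ ε := by
  classical
  -- the choice of `M`
  obtain ⟨M, hM3, hMε⟩ : ∃ M : ℕ, 3 ≤ M ∧ 3 * 2 ^ 16 * (log M / M) ≤ ε / 4 := by
    have h1 := (isLittleO_log_id_atTop).def (c := ε / 4 / (3 * 2 ^ 16)) (by positivity)
    obtain ⟨x0, hx0⟩ := Filter.eventually_atTop.1 (h1.and (Filter.eventually_ge_atTop 3))
    refine ⟨⌈x0⌉₊ + 3, by omega, ?_⟩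
    have hx : x0 ≤ ((⌈x0⌉₊ + 3 : ℕ) : ℝ) := by
      push_cast
      have := Nat.le_ceil x0
      linarith
    obtain ⟨a1, a2⟩ := hx0 _ hx
    have hx3 : (3 : ℝ) ≤ ((⌈x0⌉₊ + 3 : ℕ) : ℝ) := a2
    have hlog : 0 < log ((⌈x0⌉₊ + 3 : ℕ) : ℝ) := log_pos (by linarith)
    simp only [id_eq, norm_eq_abs] at a1
    rw [abs_of_pos hlog, abs_of_pos (by linarith)] at a1
    rw [← mul_div_assoc, div_le_iff₀ (by linarith)]
    calc 3 * 2 ^ 16 * log ((⌈x0⌉₊ + 3 : ℕ) : ℝ)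
        ≤ 3 * 2 ^ 16 * (ε / 4 / (3 * 2 ^ 16) * ((⌈x0⌉₊ + 3 : ℕ) : ℝ)) := by gcongr
      _ = ε / 4 * ((⌈x0⌉₊ + 3 : ℕ) : ℝ) := by field_simp
  set CC : ℝ := ∑ j ∈ range M, |CM j| with hCC
  have hCC0 : 0 ≤ CC := sum_nonneg fun _ _ => abs_nonneg _
  obtain ⟨g₀, hg₀⟩ := exists_threshold (ε / 4) CC (by positivity)
  refine ⟨g₀, ?_⟩
  intro ι _ g m k n d N hg hm hk hkn hn hd hde hsum ha hb hf hf' hg2
  obtain ⟨b1, b2, b3, b4, b5, b6⟩ := hg₀ g hg
  set L : ℝ := log g with hL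
  have hg0 : (0 : ℝ) < g := by linarith
  have hL0 : 0 < L := by linarith
  have hM0 : (0 : ℝ) < M := by
    have : (3 : ℝ) ≤ M := by exact_mod_cast hM3
    linarith
  have hM3R : (3 : ℝ) ≤ M := by exact_mod_cast hM3
  have hlogM : 0 ≤ log M / M := div_nonneg (log_nonneg (by linarith)) hM0.le
  have hn1 : ∀ i, 1 ≤ n i := fun i => (hk i).trans (hkn i)
  have hm1 : ∀ i, 1 ≤ m i := fun i => by
    rw [hm]
    exact Nat.mul_pos (hn1 i) (by have := hd i; omega)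
  have hkmg : ∀ i, k i * m i ≤ g := fun i =>
    (Finset.single_le_sum (f := fun i => k i * m i) (fun _ _ => Nat.zero_le _)
      (mem_univ i)).trans hsum
  have hcardι : (Fintype.card ι : ℝ) ≤ g := by
    have : Fintype.card ι ≤ g := by
      calc Fintype.card ι = ∑ _i : ι, 1 := by simp
        _ ≤ ∑ i, k i * m i := sum_le_sum fun i _ => Nat.mul_pos (hk i) (hm1 i)
        _ ≤ g := hsum
    exact_mod_cast this
  have hsumR : ∑ i, (k i : ℝ) * m i ≤ g := by exact_mod_cast hsum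
  set A : ℝ := 3 * 2 ^ 28 * 100 * L ^ 3 / (g : ℝ) ^ 2 with hA
  set B : ℝ := 3 * 2 ^ 16 * (log M / M) / g with hB
  set D : ℝ := CC * (g : ℝ) ^ (-(5 / 4 : ℝ)) with hD
  have hA0 : 0 ≤ A := by rw [hA]; positivity
  have hB0 : 0 ≤ B := by rw [hB]; positivity
  have hD0 : 0 ≤ D := by rw [hD]; positivity
  have hterm : ∀ i, N i ≤ 1 / (g : ℝ) ^ 2 + A * ((k i : ℝ) * m i) + B * ((k i : ℝ) * m i) + D := by
    intro i
    have hkm0 : (0 : ℝ) ≤ (k i : ℝ) * m i := by positivity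
    have hg20 : (0 : ℝ) ≤ 1 / (g : ℝ) ^ 2 := by positivity
    have t1 : 0 ≤ A * ((k i : ℝ) * m i) := mul_nonneg hA0 hkm0
    have t2 : 0 ≤ B * ((k i : ℝ) * m i) := mul_nonneg hB0 hkm0
    set e : ℕ := d i * (n i - k i) + d i with he
    have hmke : m i ≤ k i * e := by
      rw [hm i, he]
      obtain ⟨a, ha'⟩ := Nat.exists_eq_add_of_le (hkn i)
      have h1 : n i - k i = a := by omega
      rw [h1, ha']
      obtain ⟨b, hb'⟩ := Nat.exists_eq_add_of_le (hk i)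
      rw [hb']
      nlinarith [Nat.zero_le (a * d i * b)]
    rcases lt_or_ge (e : ℝ) (100 * L) with hlt | hge
    · have hm2 : (m i : ℝ) ^ 2 ≤ e * ((k i : ℝ) * m i) := by
        have h1 : (m i : ℝ) ≤ k i * e := by exact_mod_cast hmke
        calc (m i : ℝ) ^ 2 = m i * m i := by ring
          _ ≤ m i * (k i * e) := by gcongr
          _ = e * ((k i : ℝ) * m i) := by ring
      have hkm : (k i : ℝ) * m i ≤ g := by exact_mod_cast hkmg i
      rcases Nat.lt_or_ge e 4 with h4 | h4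
      · -- `e = 2`
        have he2 : e = 2 := by
          have h1 : Even e := by
            rw [he]
            exact ((hde i).mul_right _).add (hde i)
          have h2 : 2 ≤ e := by
            have := hd i
            omega
          obtain ⟨t, ht⟩ := h1
          omega
        rcases Nat.lt_or_ge (m i) M with hmM | hmM
        · have h1 := hg2 i he2
          have h2 : CM (m i) ≤ CC := by
            rw [hCC]
            exact (le_abs_self _).trans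
              (Finset.single_le_sum (f := fun j => |CM j|) (fun _ _ => abs_nonneg _)
                (Finset.mem_range.2 hmM))
          have h3 : CM (m i) * (g : ℝ) ^ (-(5 / 4 : ℝ)) ≤ D :=
            mul_le_mul_of_nonneg_right h2 (by positivity)
          linarith
        · have hm3 : 3 ≤ m i := hM3.trans hmM
          have h1 : (m i : ℝ) ^ 2 ≤ 2 * ((k i : ℝ) * m i) := by
            rw [he2] at hm2
            push_cast at hm2
            exact hm2
          have hmg : m i ≤ g := (Nat.le_mul_of_pos_left _ (hk i)).trans (hkmg i)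
          have h2 := two_bound (g := g) (m := m i) (N := N i) hL b2 hm3
            (h1.trans (by linarith)) hmg b1
            (fun q hq1 hq2 hq3 hq4 hq5 => by
              have := hf' i q hq1 hq2 hq3 (by rw [← he, he2]; exact hq4) hq5
              rw [← he, he2] at this
              exact this)
          have hmR : (3 : ℝ) ≤ m i := by exact_mod_cast hm3
          have h3 : log (m i) / m i ≤ log M / M := by
            apply log_div_self_antitoneOn
            · show exp 1 ≤ (M : ℝ)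
              have := exp_one_lt_d9
              linarith
            · show exp 1 ≤ (m i : ℝ)
              have := exp_one_lt_d9
              linarith
            · exact_mod_cast hmM
          have h5 : (m i : ℝ) * log (m i) ≤ 2 * ((k i : ℝ) * m i) * (log M / M) := by
            have h6 : (m i : ℝ) * log (m i) = (m i : ℝ) ^ 2 * (log (m i) / m i) := by
              field_simp
            rw [h6]
            apply mul_le_mul h1 h3 _ (by positivity)
            exact div_nonneg (log_nonneg (by linarith)) (by linarith)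
          have h7 : 3 * 2 ^ 15 * ((m i : ℝ) * log (m i)) / g ≤ B * ((k i : ℝ) * m i) := by
            rw [hB, div_mul_eq_mul_div]
            apply div_le_div_of_nonneg_right _ hg0.le
            calc 3 * 2 ^ 15 * ((m i : ℝ) * log (m i))
                ≤ 3 * 2 ^ 15 * (2 * ((k i : ℝ) * m i) * (log M / M)) := by gcongr
              _ = 3 * 2 ^ 16 * (log M / M) * ((k i : ℝ) * m i) := by ring
          linarith
      · -- `4 ≤ e < 100 L`
        have h1 : (m i : ℝ) ^ 2 ≤ 100 * L * ((k i : ℝ) * m i) :=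
          hm2.trans (mul_le_mul_of_nonneg_right hlt.le hkm0)
        have h2 := mid_bound (g := g) (m := m i) (e := e) (N := N i) hL b2 (hm1 i) h4 hlt
          (h1.trans (mul_le_mul_of_nonneg_left hkm (by positivity))) b1
          (fun q hq1 hq2 hq3 hq4 => hf i q hq1 hq2 hq3 hq4)
        have h3 : 3 * 2 ^ 28 * (m i : ℝ) ^ 2 * L ^ 2 / (g : ℝ) ^ 2 ≤ A * ((k i : ℝ) * m i) := by
          rw [hA, div_mul_eq_mul_div]
          apply div_le_div_of_nonneg_right _ (by positivity)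
          calc 3 * 2 ^ 28 * (m i : ℝ) ^ 2 * L ^ 2
              ≤ 3 * 2 ^ 28 * (100 * L * ((k i : ℝ) * m i)) * L ^ 2 := by gcongr
            _ = 3 * 2 ^ 28 * 100 * L ^ 3 * ((k i : ℝ) * m i) := by ring
        linarith
    · -- `e ≥ 100 L`
      have h1 := large_bound (hm i) (hk i) (hkn i) (hn i) (by have := hd i; omega) (hkmg i)
        (ha i) (hb i)
      have h2 : (125 / 128 : ℝ) ^ e ≤ 1 / (g : ℝ) ^ 2 := by
        calc (125 / 128 : ℝ) ^ e ≤ (exp (-(3 / 128))) ^ e := by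
              apply pow_le_pow_left₀ (by norm_num)
              have := add_one_le_exp (-(3 / 128 : ℝ))
              linarith
          _ = exp (e * (-(3 / 128))) := by rw [← exp_nat_mul]
          _ ≤ exp (-(2 * L)) := by
              apply exp_le_exp.2
              nlinarith
          _ = 1 / (g : ℝ) ^ 2 := by
              rw [exp_neg, one_div]
              congr 1
              rw [two_mul, exp_add, hL, exp_log hg0]
              ring
      linarith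
  calc ∑ i, N i ≤ ∑ i, (1 / (g : ℝ) ^ 2 + A * ((k i : ℝ) * m i) + B * ((k i : ℝ) * m i) + D) :=
        sum_le_sum fun i _ => hterm i
    _ = Fintype.card ι * (1 / (g : ℝ) ^ 2) + A * ∑ i, (k i : ℝ) * m i
        + B * ∑ i, (k i : ℝ) * m i + Fintype.card ι * D := by
      rw [sum_add_distrib, sum_add_distrib, sum_add_distrib, ← mul_sum, ← mul_sum]
      simp
    _ ≤ g * (1 / (g : ℝ) ^ 2) + A * g + B * g + g * D := by gcongr
    _ = 1 / g + 3 * 2 ^ 28 * 100 * L ^ 3 / g + 3 * 2 ^ 16 * (log M / M)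
        + CC * (g : ℝ) ^ (-(1 / 4 : ℝ)) := by
      have h1 : (g : ℝ) * D = CC * (g : ℝ) ^ (-(1 / 4 : ℝ)) := by
        rw [hD]
        have h2 : (g : ℝ) ^ (-(1 / 4 : ℝ)) = g * (g : ℝ) ^ (-(5 / 4 : ℝ)) := by
          have h3 : (-(1 / 4 : ℝ)) = 1 + -(5 / 4 : ℝ) := by norm_num
          rw [h3, rpow_add hg0, rpow_one]
        rw [h2]
        ring
      rw [h1, hA, hB]
      field_simp
    _ ≤ ε / 4 + ε / 4 + ε / 4 + ε / 4 := by linarith
    _ = ε := by ring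

end Pool.Agent.Lib.MP_938ce2_ag_h88
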